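import Pool.Agent.Helper302.Dip.Comb

set_option autoImplicit false

open Finset

namespace Pool.Agent.Helper302.Dip

theorem exists_words {E : Type} [Fintype E] {R : E → E → Prop} {len : Bool → ℕ}
    (hodd : ∀ c, Odd (len c)) (rot : Equiv.Perm E) (hrot : ∀ x, R x (rot x)) (n : E → ℤ)
    (hn : ∀ x, n (rot x) = n x) (hsum : ∑ x, n x = 1)
    (T : ℕ) (hT : ∀ c, T < len c) (L : E → ℕ → E) (hL0 : ∀ x, L x 0 = x)
    (hL : ∀ x i, i < T → R (L x i) (L x (i + 1)))
    (L' : Bool → E → ℕ → E) (hL1 : ∀ c y, L' c y (len c) = y)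
    (hL' : ∀ c y i, T < i → i < len c → R (L' c y i) (L' c y (i + 1)))
    (hmeet : ∀ c x y, R (L x T) (L' c y (T + 1))) (z : E) :
    ∃ m : ℕ, ∃ w : Bool → ℕ → ℕ → E,
      (∀ c s, s < len c → ∀ i, i ≤ 2 * m → R (w c s i) (w c (s + 1) (2 * m - i))) ∧
      (∀ c c', w c (len c) = w c' 0) ∧
      (∀ c s c' s', ∀ φ : E → ℝ, ∑ i ∈ range (2 * m + 1), (-1 : ℝ) ^ i * φ (w c s i) =
        ∑ i ∈ range (2 * m + 1), (-1 : ℝ) ^ i * φ (w c' s' i)) ∧
      (∀ c s a, ∃ i, i < m ∧ w c s i = a) ∧
      (∀ c s a, ∃ i, m < i ∧ i ≤ 2 * m ∧ w c s i = a) := by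
  classical
  -- connecting walks
  set M : Bool → E → E → ℕ → E := fun c x y i => if i ≤ T then L x i else L' c y i with hMdef
  have hM0 : ∀ c x y, M c x y 0 = x := by
    intro c x y
    simp only [hMdef, if_pos (Nat.zero_le T), hL0]
  have hM1 : ∀ c x y, M c x y (len c) = y := by
    intro c x y
    simp only [hMdef, if_neg (not_le.mpr (hT c)), hL1]
  have hM : ∀ c x y i, i < len c → R (M c x y i) (M c x y (i + 1)) := by
    intro c x y i hi
    rcases lt_trichotomy i T with h | h | h
    · simp only [hMdef, if_pos h.le, if_pos (show i + 1 ≤ T by omega)]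
      exact hL x i h
    · subst h
      simp only [hMdef, if_pos le_rfl, if_neg (show ¬ i + 1 ≤ i by omega)]
      exact hmeet c x y
    · simp only [hMdef, if_neg (not_le.mpr h), if_neg (show ¬ i + 1 ≤ T by omega)]
      exact hL' c y i h hi
  let Φ : E → E → PH R len := fun x y =>
    { x := x, y := y, p := fun c => M c x y, q := fun c => M c y x
      p0 := fun c => hM0 c x y, q0 := fun c => hM0 c y x
      p1 := fun c => hM1 c x y, q1 := fun c => hM1 c y x
      hp := fun c i hi => hM c x y i hi, hq := fun c i hi => hM c y x i hi }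
  have hrotk : ∀ (k : ℕ) (x : E), (rot ^ (k + 1)) x = rot ((rot ^ k) x) := by
    intro k x
    rw [pow_succ', Equiv.Perm.mul_apply]
  let Θ : Bool → E → PH R len := fun c' x =>
    { x := x, y := (rot ^ (len c')) x
      p := fun c i => if c = c' then (rot ^ i) x else M c x ((rot ^ (len c')) x) i
      q := fun c => M c ((rot ^ (len c')) x) x
      p0 := fun c => by
        split_ifs with h
        · rw [pow_zero, Equiv.Perm.one_apply]
        · exact hM0 _ _ _
      q0 := fun c => hM0 _ _ _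
      p1 := fun c => by
        split_ifs with h
        · rw [h]
        · exact hM1 _ _ _
      q1 := fun c => hM1 _ _ _
      hp := fun c i hi => by
        by_cases h : c = c'
        · rw [if_pos h, if_pos h, hrotk]
          exact hrot _
        · rw [if_neg h, if_neg h]
          exact hM _ _ _ _ hi
      hq := fun c i hi => hM _ _ _ _ hi }
  have hΘp : ∀ c x i, (Θ c x).p c i = (rot ^ i) x := fun c x i => by
    show (if c = c then _ else _) = _
    rw [if_pos rfl]
  have hnk : ∀ (k : ℕ) (x : E), n ((rot ^ k) x) = n x := by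
    intro k x
    induction k with
    | zero => rw [pow_zero, Equiv.Perm.one_apply]
    | succ k ih => rw [hrotk, hn, ih]
  have hreindex : ∀ (k : ℕ) (φ : E → ℝ), ∑ x, (n x : ℝ) * φ ((rot ^ k) x) = ∑ x, (n x : ℝ) * φ x := by
    intro k φ
    rw [← Equiv.sum_comp (rot ^ k) (fun x => (n x : ℝ) * φ x)]
    refine sum_congr rfl fun x _ => ?_
    rw [hnk]
  have hsumR : ∑ x, (n x : ℝ) = 1 := by exact_mod_cast congrArg (Int.cast : ℤ → ℝ) hsum
  set v : Bool → ℕ → (E → ℝ) → ℝ :=
    ∑ x, n x • ((Φ x z).cont - (Φ z z).cont) +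
      ∑ c', ∑ x, n x • ((Θ c' x).cont - (Φ x ((rot ^ (len c')) x)).cont) with hv
  have hvmem : v ∈ diffs (Φ z z) := by
    have hgen : ∀ A B : PH R len, A.cont - B.cont ∈ diffs (Φ z z) := fun A B =>
      ⟨1, fun _ => A, fun _ => B, by simp⟩
    refine add_mem (sum_mem fun x _ => zsmul_mem (hgen _ _) _) ?_
    exact sum_mem fun c' _ => sum_mem fun x _ => zsmul_mem (hgen _ _) _
  have hev : ∀ (a : ℤ) (f g : Bool → ℕ → (E → ℝ) → ℝ) (c : Bool) (i : ℕ) (φ : E → ℝ),
      (a • (f - g)) c i φ = (a : ℝ) * (f c i φ - g c i φ) := by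
    intro a f g c i φ
    show a • (f c i φ - g c i φ) = _
    rw [zsmul_eq_mul]
  -- evaluation of `v`
  have hval : ∀ c i φ, v c i φ = ∑ x, (n x : ℝ) * φ x - φ (M c z z i) := by
    intro c i φ
    have e1 : ∀ x, φ (M c x z i) + φ (M c z x i) = φ (M c x x i) + φ (M c z z i) := by
      intro x
      by_cases h : i ≤ T
      · simp only [hMdef, if_pos h]
      · simp only [hMdef, if_neg h]
        ring
    have e2 : ∑ x, (n x : ℝ) * φ (M c x ((rot ^ (len c)) x) i) =
        ∑ x, (n x : ℝ) * φ (M c x x i) := by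
      by_cases h : i ≤ T
      · simp only [hMdef, if_pos h]
      · simp only [hMdef, if_neg h]
        exact hreindex (len c) (fun y => φ (L' c y i))
    have e3 : (∑ x, n x • ((Φ x z).cont - (Φ z z).cont)) c i φ =
        ∑ x, (n x : ℝ) * φ (M c x x i) - φ (M c z z i) := by
      simp only [Finset.sum_apply, hev]
      have : ∀ x, (n x : ℝ) * ((Φ x z).cont c i φ - (Φ z z).cont c i φ) =
          (n x : ℝ) * φ (M c x x i) - (n x : ℝ) * φ (M c z z i) := by
        intro x
        have h1 : (Φ x z).cont c i φ = φ (M c x z i) + φ (M c z x i) := rfl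
        have h2 : (Φ z z).cont c i φ = φ (M c z z i) + φ (M c z z i) := rfl
        rw [h1, h2, e1 x]
        ring
      simp only [this, sum_sub_distrib, ← sum_mul, hsumR, one_mul]
    have e4 : (∑ c', ∑ x, n x • ((Θ c' x).cont - (Φ x ((rot ^ (len c')) x)).cont)) c i φ =
        ∑ x, (n x : ℝ) * φ x - ∑ x, (n x : ℝ) * φ (M c x x i) := by
      simp only [Finset.sum_apply, hev]
      rw [Finset.sum_eq_single c]
      · have : ∀ x, (n x : ℝ) * ((Θ c x).cont c i φ - (Φ x ((rot ^ (len c)) x)).cont c i φ) =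
            (n x : ℝ) * φ ((rot ^ i) x) - (n x : ℝ) * φ (M c x ((rot ^ (len c)) x) i) := by
          intro x
          have h1 : (Θ c x).cont c i φ =
              φ ((Θ c x).p c i) + φ (M c ((rot ^ (len c)) x) x i) := rfl
          have h2 : (Φ x ((rot ^ (len c)) x)).cont c i φ =
              φ (M c x ((rot ^ (len c)) x) i) + φ (M c ((rot ^ (len c)) x) x i) := rfl
          rw [h1, h2, hΘp]
          ring
        simp only [this, sum_sub_distrib]
        rw [hreindex, e2]
      · intro c' _ hc'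
        refine sum_eq_zero fun x _ => ?_
        have h1 : (Θ c' x).cont c i φ =
            φ (if c = c' then (rot ^ i) x else M c x ((rot ^ (len c')) x) i) +
              φ (M c ((rot ^ (len c')) x) x i) := rfl
        have h2 : (Φ x ((rot ^ (len c')) x)).cont c i φ =
            φ (M c x ((rot ^ (len c')) x) i) + φ (M c ((rot ^ (len c')) x) x i) := rfl
        rw [h1, h2, if_neg (Ne.symm hc'), sub_self, mul_zero]
      · intro h
        exact absurd (mem_univ c) h
    rw [hv, Pi.add_apply, Pi.add_apply, Pi.add_apply, e3, e4]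
    ring
  -- the covering list
  obtain ⟨N, P, Q, hPQ, hcov⟩ := exists_cover hvmem
    (((univ : Finset (Bool × E)).toList.map (fun a => Θ a.1 a.2)) ++
      ((univ : Finset (Bool × E)).toList.map (fun a => (Θ a.1 a.2).swap)))
  have hc1 : ∀ c x, ∃ k, k < N ∧ P k = Θ c x := fun c x => hcov _ (by
    rw [List.mem_append]
    left
    exact List.mem_map.mpr ⟨(c, x), by simp, rfl⟩)
  have hc2 : ∀ c x, ∃ k, k < N ∧ P k = (Θ c x).swap := fun c x => hcov _ (by
    rw [List.mem_append]
    right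
    exact List.mem_map.mpr ⟨(c, x), by simp, rfl⟩)
  refine words_of_balanced hodd (fun c => M c z z) z (fun c => hM0 _ _ _) (fun c => hM1 _ _ _)
    (fun c i hi => hM _ _ _ _ hi) (fun φ => ∑ x, (n x : ℝ) * φ x) N P Q ?_ ?_ ?_
  · intro c i φ
    rw [← hval c i φ, hPQ]
    simp only [Finset.sum_apply, Pi.sub_apply]
  · intro c i a
    by_cases hi : Even i
    · obtain ⟨k, hk, hkP⟩ := hc1 c ((rot ^ i).symm a)
      refine ⟨k, hk, ?_⟩
      rw [hkP, PH.X, if_pos hi, hΘp, Equiv.apply_symm_apply]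
    · obtain ⟨k, hk, hkP⟩ := hc2 c ((rot ^ i).symm a)
      refine ⟨k, hk, ?_⟩
      rw [hkP, PH.X, if_neg hi]
      show (Θ c _).p c i = a
      rw [hΘp, Equiv.apply_symm_apply]
  · intro c i a
    by_cases hi : Even i
    · obtain ⟨k, hk, hkP⟩ := hc2 c ((rot ^ i).symm a)
      refine ⟨k, hk, ?_⟩
      rw [hkP, PH.Y, if_pos hi]
      show (Θ c _).p c i = a
      rw [hΘp, Equiv.apply_symm_apply]
    · obtain ⟨k, hk, hkP⟩ := hc1 c ((rot ^ i).symm a)
      refine ⟨k, hk, ?_⟩
      rw [hkP, PH.Y, if_neg hi, hΘp, Equiv.apply_symm_apply]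

end Pool.Agent.Helper302.Dip
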