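import Mathlib

set_option autoImplicit false

open Finset

namespace Pool.Agent.Helper302.Dip

section Step

variable {E : Type} (R : E → E → Prop) (len : Bool → ℕ)

/-- A pair of walks around both cycles of a wedge, exchanging two edges. -/
structure PH where
  x : E
  y : E
  p : Bool → ℕ → E
  q : Bool → ℕ → E
  p0 : ∀ c, p c 0 = x
  q0 : ∀ c, q c 0 = y
  p1 : ∀ c, p c (len c) = y
  q1 : ∀ c, q c (len c) = x
  hp : ∀ c i, i < len c → R (p c i) (p c (i + 1))
  hq : ∀ c i, i < len c → R (q c i) (q c (i + 1))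

variable {R len}

namespace PH

def X (P : PH R len) (c : Bool) (i : ℕ) : E := if Even i then P.p c i else P.q c i
def Y (P : PH R len) (c : Bool) (i : ℕ) : E := if Even i then P.q c i else P.p c i

def swap (P : PH R len) : PH R len where
  x := P.y
  y := P.x
  p := P.q
  q := P.p
  p0 := P.q0
  q0 := P.p0
  p1 := P.q1
  q1 := P.p1
  hp := P.hq
  hq := P.hp

/-- The content of a pair of walks, as a functional. -/
def cont (P : PH R len) : Bool → ℕ → (E → ℝ) → ℝ := fun c i φ => φ (P.p c i) + φ (P.q c i)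

lemma cont_eq (P : PH R len) (c : Bool) (i : ℕ) (φ : E → ℝ) :
    φ (P.X c i) + φ (P.Y c i) = P.cont c i φ := by
  unfold X Y cont
  split_ifs
  · rfl
  · ring

lemma R_X_Y (P : PH R len) {c : Bool} {i : ℕ} (h : i < len c) : R (P.X c i) (P.Y c (i + 1)) := by
  unfold X Y
  by_cases hi : Even i
  · have hi' : ¬ Even (i + 1) := by rw [Nat.even_add_one]; simpa using hi
    simp only [hi, hi', if_true, if_false]
    exact P.hp c i h
  · have hi' : Even (i + 1) := by rw [Nat.even_add_one]; exact hi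
    simp only [hi, hi', if_true, if_false]
    exact P.hq c i h

lemma R_Y_X (P : PH R len) {c : Bool} {i : ℕ} (h : i < len c) : R (P.Y c i) (P.X c (i + 1)) := by
  unfold X Y
  by_cases hi : Even i
  · have hi' : ¬ Even (i + 1) := by rw [Nat.even_add_one]; simpa using hi
    simp only [hi, hi', if_true, if_false]
    exact P.hq c i h
  · have hi' : Even (i + 1) := by rw [Nat.even_add_one]; exact hi
    simp only [hi, hi', if_true, if_false]
    exact P.hp c i h

lemma X_zero (P : PH R len) (c : Bool) : P.X c 0 = P.x := by simp [X, P.p0]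
lemma Y_zero (P : PH R len) (c : Bool) : P.Y c 0 = P.y := by simp [Y, P.q0]

lemma X_len (P : PH R len) (hodd : ∀ c, Odd (len c)) (c : Bool) : P.X c (len c) = P.x := by
  have : ¬ Even (len c) := Nat.not_even_iff_odd.mpr (hodd c)
  simp [X, this, P.q1]

lemma Y_len (P : PH R len) (hodd : ∀ c, Odd (len c)) (c : Bool) : P.Y c (len c) = P.y := by
  have : ¬ Even (len c) := Nat.not_even_iff_odd.mpr (hodd c)
  simp [Y, this, P.p1]

end PH

/-- The subgroup of functionals which are sums of differences of contents. -/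
def diffs (A : PH R len) : AddSubgroup (Bool → ℕ → (E → ℝ) → ℝ) where
  carrier := {v | ∃ n, ∃ P Q : ℕ → PH R len, v = ∑ k ∈ range n, ((P k).cont - (Q k).cont)}
  zero_mem' := ⟨0, fun _ => A, fun _ => A, by simp⟩
  add_mem' := by
    rintro a b ⟨n, P, Q, ha⟩ ⟨n', P', Q', hb⟩
    refine ⟨n + n', fun k => if k < n then P k else P' (k - n),
      fun k => if k < n then Q k else Q' (k - n), ?_⟩
    rw [sum_range_add, ha, hb]
    congr 1
    · refine sum_congr rfl fun k hk => ?_
      dsimp only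
      rw [if_pos (mem_range.mp hk), if_pos (mem_range.mp hk)]
    · refine sum_congr rfl fun k hk => ?_
      have h : ¬ (n + k < n) := by omega
      dsimp only
      rw [if_neg h, if_neg h, Nat.add_sub_cancel_left]
  neg_mem' := by
    rintro a ⟨n, P, Q, ha⟩
    refine ⟨n, Q, P, ?_⟩
    rw [ha, ← sum_neg_distrib]
    refine sum_congr rfl fun k _ => ?_
    rw [neg_sub]

lemma exists_cover {v : Bool → ℕ → (E → ℝ) → ℝ}
    (hv : ∃ n, ∃ P Q : ℕ → PH R len, v = ∑ k ∈ range n, ((P k).cont - (Q k).cont))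
    (l : List (PH R len)) :
    ∃ n, ∃ P Q : ℕ → PH R len, v = ∑ k ∈ range n, ((P k).cont - (Q k).cont) ∧
      ∀ A ∈ l, ∃ k, k < n ∧ P k = A := by
  induction l with
  | nil =>
    obtain ⟨n, P, Q, h⟩ := hv
    exact ⟨n, P, Q, h, by simp⟩
  | cons A l ih =>
    obtain ⟨n, P, Q, h, hl⟩ := ih
    refine ⟨n + 1, Function.update P n A, Function.update Q n A, ?_, ?_⟩
    · rw [sum_range_succ, Function.update_self, Function.update_self, sub_self, add_zero, h]
      refine sum_congr rfl fun k hk => ?_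
      have hk' : k ≠ n := (mem_range.mp hk).ne
      rw [Function.update_of_ne hk', Function.update_of_ne hk']
    · intro B hB
      rcases List.mem_cons.mp hB with rfl | hB
      · exact ⟨n, by omega, by rw [Function.update_self]⟩
      · obtain ⟨k, hk, hkB⟩ := hl B hB
        exact ⟨k, by omega, by rw [Function.update_of_ne hk.ne, hkB]⟩

lemma sum_fold (m : ℕ) (F : ℕ → ℝ) :
    ∑ i ∈ range (2 * m + 1), F i = ∑ i ∈ range m, (F i + F (2 * m - i)) + F m := by
  have h1 : 2 * m + 1 = m + (m + 1) := by ring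
  rw [h1, sum_range_add, sum_range_succ', sum_add_distrib]
  have h2 : ∑ k ∈ range m, F (m + (k + 1)) = ∑ k ∈ range m, F (2 * m - k) := by
    rw [← sum_range_reflect]
    refine sum_congr rfl fun k hk => ?_
    have := mem_range.mp hk
    congr 1
    omega
  rw [h2, add_zero]
  ring

lemma sum_pairs (n : ℕ) (h : ℕ → ℝ) :
    ∑ i ∈ range (2 * n), (-1 : ℝ) ^ i * h i = ∑ k ∈ range n, (h (2 * k) - h (2 * k + 1)) := by
  induction n with
  | zero => simp
  | succ n ih =>
    have h1 : 2 * (n + 1) = 2 * n + 1 + 1 := by ring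
    rw [h1, sum_range_succ, sum_range_succ, ih, sum_range_succ]
    have e1 : (-1 : ℝ) ^ (2 * n) = 1 := by rw [pow_mul]; simp
    have e2 : (-1 : ℝ) ^ (2 * n + 1) = -1 := by rw [pow_succ, e1]; simp
    rw [e1, e2]
    ring

/-- From a balanced family of pairs of walks to words. -/
theorem words_of_balanced (hodd : ∀ c, Odd (len c)) (Ψ : Bool → ℕ → E) (z : E)
    (hΨ0 : ∀ c, Ψ c 0 = z) (hΨ1 : ∀ c, Ψ c (len c) = z)
    (hΨ : ∀ c i, i < len c → R (Ψ c i) (Ψ c (i + 1)))
    (σ : (E → ℝ) → ℝ) (n : ℕ) (P Q : ℕ → PH R len)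
    (hv : ∀ c i φ, ∑ k ∈ range n, ((P k).cont c i φ - (Q k).cont c i φ) = σ φ - φ (Ψ c i))
    (hX : ∀ c i a, ∃ k, k < n ∧ (P k).X c i = a) (hY : ∀ c i a, ∃ k, k < n ∧ (P k).Y c i = a) :
    ∃ m : ℕ, ∃ w : Bool → ℕ → ℕ → E,
      (∀ c s, s < len c → ∀ i, i ≤ 2 * m → R (w c s i) (w c (s + 1) (2 * m - i))) ∧
      (∀ c c', w c (len c) = w c' 0) ∧
      (∀ c s c' s', ∀ φ : E → ℝ, ∑ i ∈ range (2 * m + 1), (-1 : ℝ) ^ i * φ (w c s i) =
        ∑ i ∈ range (2 * m + 1), (-1 : ℝ) ^ i * φ (w c' s' i)) ∧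
      (∀ c s a, ∃ i, i < m ∧ w c s i = a) ∧
      (∀ c s a, ∃ i, m < i ∧ i ≤ 2 * m ∧ w c s i = a) := by
  set A : ℕ → PH R len := fun i => if Even i then P (i / 2) else Q (i / 2) with hA
  set m := 2 * n with hm
  set w : Bool → ℕ → ℕ → E := fun c s i =>
    if i < m then (A i).X c s else if i = m then Ψ c s else (A (2 * m - i)).Y c s with hw
  have hA0 : ∀ k, A (2 * k) = P k := by
    intro k
    have : Even (2 * k) := even_two_mul k
    simp [hA]
  have hA1 : ∀ k, A (2 * k + 1) = Q k := by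
    intro k
    have h1 : ¬ Even (2 * k + 1) := by simp
    have h2 : (2 * k + 1) / 2 = k := by omega
    simp only [hA, h1, if_false, h2]
  have hw1 : ∀ c s i, i < m → w c s i = (A i).X c s := fun c s i hi => by simp only [hw, if_pos hi]
  have hw2 : ∀ c s, w c s m = Ψ c s := fun c s => by simp [hw]
  have hw3 : ∀ c s i, m < i → w c s i = (A (2 * m - i)).Y c s := fun c s i hi => by
    simp only [hw, if_neg (show ¬ i < m by omega), if_neg (show ¬ i = m by omega)]
  refine ⟨m, w, ?_, ?_, ?_, ?_, ?_⟩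
  · intro c s hs i hi
    rcases lt_trichotomy i m with h | h | h
    · rw [hw1 _ _ _ h, hw3 _ _ _ (by omega)]
      have : 2 * m - (2 * m - i) = i := by omega
      rw [this]
      exact (A i).R_X_Y hs
    · have : 2 * m - i = m := by omega
      rw [this, h, hw2, hw2]
      exact hΨ c s hs
    · rw [hw3 _ _ _ h, hw1 _ _ _ (by omega)]
      exact (A _).R_Y_X hs
  · intro c c'
    funext i
    rcases lt_trichotomy i m with h | h | h
    · rw [hw1 _ _ _ h, hw1 _ _ _ h, PH.X_len _ hodd, PH.X_zero]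
    · rw [h, hw2, hw2, hΨ0, hΨ1]
    · rw [hw3 _ _ _ h, hw3 _ _ _ h, PH.Y_len _ hodd, PH.Y_zero]
  · have key : ∀ c s, ∀ φ : E → ℝ, ∑ i ∈ range (2 * m + 1), (-1 : ℝ) ^ i * φ (w c s i) = σ φ := by
      intro c s φ
      rw [sum_fold]
      have h1 : ∑ i ∈ range m, ((-1 : ℝ) ^ i * φ (w c s i) +
          (-1 : ℝ) ^ (2 * m - i) * φ (w c s (2 * m - i))) =
          ∑ i ∈ range (2 * n), (-1 : ℝ) ^ i * (A i).cont c s φ := by
        rw [← hm]
        refine sum_congr rfl fun i hi => ?_
        have hi' := mem_range.mp hi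
        rw [hw1 _ _ _ hi', hw3 _ _ _ (by omega)]
        have h2 : 2 * m - (2 * m - i) = i := by omega
        have h3 : (-1 : ℝ) ^ (2 * m - i) = (-1 : ℝ) ^ i := by
          have h4 : (-1 : ℝ) ^ (2 * m - i) * (-1 : ℝ) ^ i = 1 := by
            rw [← pow_add, show 2 * m - i + i = 2 * m by omega, pow_mul]; simp
          have h5 : (-1 : ℝ) ^ i * (-1 : ℝ) ^ i = 1 := by
            rw [← mul_pow]; simp
          have h6 : (-1 : ℝ) ^ i ≠ 0 := by
            intro h; rw [h] at h5; simp at h5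
          exact mul_right_cancel₀ h6 (h4.trans h5.symm)
        rw [h2, h3, ← mul_add, PH.cont_eq]
      have h7 : (-1 : ℝ) ^ m = 1 := by rw [hm, pow_mul]; simp
      rw [h1, sum_pairs, hw2, h7, one_mul]
      have h8 : ∑ k ∈ range n, ((A (2 * k)).cont c s φ - (A (2 * k + 1)).cont c s φ) =
          σ φ - φ (Ψ c s) := by
        rw [← hv c s φ]
        refine sum_congr rfl fun k _ => ?_
        rw [hA0, hA1]
      rw [h8]
      ring
    intro c s c' s' φ
    rw [key, key]
  · intro c s a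
    obtain ⟨k, hk, hka⟩ := hX c s a
    exact ⟨2 * k, by omega, by rw [hw1 _ _ _ (by omega), hA0, hka]⟩
  · intro c s a
    obtain ⟨k, hk, hka⟩ := hY c s a
    refine ⟨2 * m - 2 * k, by omega, by omega, ?_⟩
    rw [hw3 _ _ _ (by omega)]
    have : 2 * m - (2 * m - 2 * k) = 2 * k := by omega
    rw [this, hA0, hka]

end Step

end Pool.Agent.Helper302.Dip
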