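import Pool.Agent.Helper302.Dip.Balance

set_option autoImplicit false

open Finset

namespace Pool.Agent.Helper302.Dip

/-- The lengths of the two cycles of the wedge. -/
def ln (s : ℕ) (c : Bool) : ℕ := if c then 2 * s + 3 else 2 * s + 1

lemma ln_false (s : ℕ) : ln s false = 2 * s + 1 := rfl
lemma ln_true (s : ℕ) : ln s true = 2 * s + 3 := rfl

lemma ln_ge (s : ℕ) (c : Bool) : 2 * s + 1 ≤ ln s c := by
  cases c
  · rw [ln_false]
  · rw [ln_true]; omega

lemma ln_le (s : ℕ) (c : Bool) : ln s c ≤ 2 * s + 3 := by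
  cases c
  · rw [ln_false]; omega
  · rw [ln_true]

lemma ln_odd (s : ℕ) (c : Bool) : Odd (ln s c) := by
  cases c
  · exact ⟨s, rfl⟩
  · exact ⟨s + 1, by rw [ln_true]; ring⟩

/-- The edges of the wedge of two directed cycles. -/
abbrev Ed (s : ℕ) : Type := Σ c : Bool, Fin (ln s c)

/-- The edge at position `i` of the cycle `c`. -/
def ed (s : ℕ) (c : Bool) (i : ℕ) (h : i < ln s c) : Ed s := ⟨c, ⟨i, h⟩⟩

/-- Composability of edges. -/
def Rel (s : ℕ) (a b : Ed s) : Prop :=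
  (a.1 = b.1 ∧ (a.2 : ℕ) + 1 = b.2) ∨ ((a.2 : ℕ) + 1 = ln s a.1 ∧ (b.2 : ℕ) = 0)

lemma rel_irrefl {s : ℕ} (hs : 1 ≤ s) {a b : Ed s} (h : Rel s a b) : a ≠ b := by
  rintro rfl
  rcases h with ⟨-, h⟩ | ⟨h1, h2⟩
  · omega
  · have := ln_ge s a.1
    omega

/-- Walks. -/
def Wk (s n : ℕ) (a b : Ed s) : Prop :=
  ∃ r : ℕ → Ed s, r 0 = a ∧ r n = b ∧ ∀ i, i < n → Rel s (r i) (r (i + 1))

lemma Wk.refl {s : ℕ} (a : Ed s) : Wk s 0 a a := ⟨fun _ => a, rfl, rfl, fun i hi => absurd hi (by omega)⟩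

lemma Wk.single {s : ℕ} {a b : Ed s} (h : Rel s a b) : Wk s 1 a b := by
  refine ⟨fun i => if i = 0 then a else b, by simp, by simp, fun i hi => ?_⟩
  obtain rfl : i = 0 := by omega
  simpa using h

lemma Wk.trans {s n m : ℕ} {a b c : Ed s} (h1 : Wk s n a b) (h2 : Wk s m b c) : Wk s (n + m) a c := by
  obtain ⟨r, r0, rn, hr⟩ := h1
  obtain ⟨t, t0, tm, ht⟩ := h2
  refine ⟨fun i => if i < n then r i else t (i - n), ?_, ?_, fun i hi => ?_⟩
  · by_cases h : 0 < n
    · simp only [if_pos h]; exact r0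
    · obtain rfl : n = 0 := by omega
      simp only [lt_irrefl, if_false]
      rw [← r0, rn, t0]
  · simp only [if_neg (show ¬ n + m < n by omega), Nat.add_sub_cancel_left]
    exact tm
  · rcases Nat.lt_or_ge (i + 1) n with h | h
    · simp only [if_pos h, if_pos (show i < n by omega)]
      exact hr i (by omega)
    · rcases Nat.lt_or_ge i n with h' | h'
      · obtain rfl : n = i + 1 := by omega
        simp only [if_pos h', lt_irrefl, if_false, Nat.sub_self]
        rw [t0, ← rn]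
        exact hr i (by omega)
      · simp only [if_neg (show ¬ i < n by omega), if_neg (show ¬ i + 1 < n by omega)]
        have := ht (i - n) (by omega)
        rw [show i + 1 - n = i - n + 1 by omega]
        exact this

lemma Wk.cast {s n m : ℕ} {a b : Ed s} (h : Wk s n a b) (e : n = m) : Wk s m a b := e ▸ h

lemma wk_seg (s : ℕ) (c : Bool) (i k : ℕ) (h : i + k < ln s c) :
    Wk s k (ed s c i (by omega)) (ed s c (i + k) h) := by
  induction k with
  | zero => exact Wk.refl _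
  | succ k ih =>
    exact (ih (by omega)).trans (Wk.single (Or.inl ⟨rfl, rfl⟩))

lemma wk_end (s : ℕ) (c c' : Bool) (i : ℕ) (h : i < ln s c) :
    Wk s (ln s c - i) (ed s c i h) (ed s c' 0 (by have := ln_ge s c'; omega)) := by
  obtain ⟨k, hk⟩ : ∃ k, ln s c = i + k + 1 := ⟨ln s c - i - 1, by omega⟩
  have h1 : Wk s k (ed s c i h) (ed s c (i + k) (by omega)) := wk_seg s c i k (by omega)
  have h2 : Wk s 1 (ed s c (i + k) (by omega)) (ed s c' 0 (by have := ln_ge s c'; omega)) :=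
    Wk.single (Or.inr ⟨hk.symm, rfl⟩)
  have h3 : ln s c - i = k + 1 := by omega
  rw [h3]
  exact h1.trans h2

/-- The base edge. -/
def o (s : ℕ) : Ed s := ed s false 0 (by rw [ln_false]; omega)

lemma wk_loop1 (s : ℕ) : Wk s (2 * s + 1) (o s) (o s) :=
  (wk_end s false false 0 (by rw [ln_false]; omega)).cast (by rw [ln_false]; omega)

lemma wk_loop2 (s : ℕ) : Wk s (4 * s + 4) (o s) (o s) := by
  have h1 := wk_end s false true 0 (by rw [ln_false]; omega)
  have h2 := wk_end s true false 0 (by rw [ln_true]; omega)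
  exact (h1.trans h2).cast (by rw [ln_false, ln_true]; omega)

lemma exists_loops {s : ℕ} (hs : 1 ≤ s) : ∃ N, ∀ k, N ≤ k → Wk s k (o s) (o s) := by
  have hcop : Nat.Coprime (2 * s + 1) (4 * s + 4) := by
    rw [Nat.coprime_iff_gcd_eq_one]
    have hd : Nat.gcd (2 * s + 1) (4 * s + 4) ∣ 2 := by
      have h1 := Nat.gcd_dvd_left (2 * s + 1) (4 * s + 4)
      have h2 := Nat.gcd_dvd_right (2 * s + 1) (4 * s + 4)
      have h3 : Nat.gcd (2 * s + 1) (4 * s + 4) ∣ 2 * (2 * s + 1) := h1.mul_left 2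
      have h4 := Nat.dvd_sub h2 h3
      rwa [show 4 * s + 4 - 2 * (2 * s + 1) = 2 by omega] at h4
    rcases (Nat.dvd_prime Nat.prime_two).mp hd with h | h
    · exact h
    · have h1 := Nat.gcd_dvd_left (2 * s + 1) (4 * s + 4)
      rw [h] at h1
      omega
  have hF := frobeniusNumber_pair hcop (by omega) (by omega)
  refine ⟨(2 * s + 1) * (4 * s + 4) - (2 * s + 1) - (4 * s + 4) + 1, fun k hk => ?_⟩
  have hmem : k ∈ AddSubmonoid.closure ({2 * s + 1, 4 * s + 4} : Set ℕ) := by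
    by_contra hcon
    have := hF.2 hcon
    omega
  refine AddSubmonoid.closure_induction (motive := fun k _ => Wk s k (o s) (o s)) ?_ (Wk.refl _)
    (fun a b _ _ ha hb => Wk.trans ha hb) hmem
  intro x hx
  rcases hx with rfl | rfl
  · exact wk_loop1 s
  · exact wk_loop2 s

lemma exists_primitive {s : ℕ} (hs : 1 ≤ s) : ∃ N, ∀ k, N ≤ k → ∀ a b : Ed s, Wk s k a b := by
  obtain ⟨N, hN⟩ := exists_loops hs
  refine ⟨N + (2 * s + 3) + (4 * s + 4), fun k hk a b => ?_⟩
  obtain ⟨c, i, hi⟩ := a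
  obtain ⟨c', i', hi'⟩ := b
  have h1 : Wk s (ln s c - i) ⟨c, i, hi⟩ (o s) := wk_end s c false i hi
  have h2 : Wk s (2 * s + 1) (o s) (ed s c' 0 (by have := ln_ge s c'; omega)) :=
    (wk_end s false c' 0 (by rw [ln_false]; omega)).cast (by rw [ln_false]; omega)
  have h3 : Wk s i' (ed s c' 0 (by have := ln_ge s c'; omega)) ⟨c', i', hi'⟩ := by
    have := wk_seg s c' 0 i' (by omega)
    simpa [ed] using this
  have hl := ln_le s c
  have hl' := ln_le s c'
  have h4 := hN (k - (ln s c - i) - (2 * s + 1) - i') (by omega)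
  have h5 := ((h1.trans h4).trans h2).trans h3
  rw [show ln s c - i + (k - (ln s c - i) - (2 * s + 1) - i') + (2 * s + 1) + i' = k by omega] at h5
  exact h5

/-- The rotation of both cycles. -/
def rotE (s : ℕ) : Equiv.Perm (Ed s) := Equiv.sigmaCongrRight (fun c => finRotate (ln s c))

lemma rotE_fst (s : ℕ) (a : Ed s) : (rotE s a).1 = a.1 := rfl

lemma coe_finRotate' (n : ℕ) (i : Fin n) :
    ((finRotate n i : Fin n) : ℕ) = if (i : ℕ) + 1 = n then 0 else (i : ℕ) + 1 := by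
  cases n with
  | zero => exact i.elim0
  | succ n =>
    rw [coe_finRotate]
    by_cases h : i = Fin.last n
    · subst h; simp
    · rw [if_neg h, if_neg]
      intro h'
      apply h
      apply Fin.ext
      simp at h' ⊢
      omega

lemma rel_rot (s : ℕ) (a : Ed s) : Rel s a (rotE s a) := by
  have h : (((rotE s a).2 : Fin _) : ℕ) = if (a.2 : ℕ) + 1 = ln s a.1 then 0 else (a.2 : ℕ) + 1 :=
    coe_finRotate' (ln s a.1) a.2
  by_cases h' : (a.2 : ℕ) + 1 = ln s a.1
  · right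
    rw [if_pos h'] at h
    exact ⟨h', h⟩
  · left
    rw [if_neg h'] at h
    exact ⟨rfl, h.symm⟩

/-- The weights. -/
def wt (s : ℕ) (a : Ed s) : ℤ := if a.1 then -(s : ℤ) else (s : ℤ) + 1

lemma sum_wt (s : ℕ) : ∑ a : Ed s, wt s a = 1 := by
  rw [Fintype.sum_sigma]
  have h : ∀ c : Bool, ∑ y : Fin (ln s c), wt s ⟨c, y⟩ =
      (ln s c : ℤ) * (if c then -(s : ℤ) else (s : ℤ) + 1) := by
    intro c
    have h1 : ∀ y : Fin (ln s c), wt s ⟨c, y⟩ = (if c then -(s : ℤ) else (s : ℤ) + 1) :=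
      fun y => rfl
    rw [sum_congr rfl (fun y _ => h1 y), sum_const, card_univ, Fintype.card_fin, nsmul_eq_mul]
  rw [sum_congr rfl (fun c _ => h c), Fintype.sum_bool, ln_true, ln_false]
  simp only [if_true, Bool.false_eq_true, if_false]
  push_cast
  ring

/-- One step of the construction. -/
theorem step {s : ℕ} (hs : 1 ≤ s) : ∃ T, 1 ≤ T ∧ ∃ m : ℕ, ∃ w : Bool → ℕ → ℕ → Ed s,
      (∀ c t, t < ln T c → ∀ i, i ≤ 2 * m → Rel s (w c t i) (w c (t + 1) (2 * m - i))) ∧
      (∀ c c', w c (ln T c) = w c' 0) ∧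
      (∀ c t c' t', ∀ φ : Ed s → ℝ, ∑ i ∈ range (2 * m + 1), (-1 : ℝ) ^ i * φ (w c t i) =
        ∑ i ∈ range (2 * m + 1), (-1 : ℝ) ^ i * φ (w c' t' i)) ∧
      (∀ c t a, ∃ i, i < m ∧ w c t i = a) ∧
      (∀ c t a, ∃ i, m < i ∧ i ≤ 2 * m ∧ w c t i = a) := by
  obtain ⟨N, hN⟩ := exists_primitive hs
  set T := N + 1 with hT
  refine ⟨T, by omega, ?_⟩
  have hlast : 2 * s < ln s false := by rw [ln_false]; omega
  -- walks to the last edge of the first cycle
  have hL : ∀ x : Ed s, ∃ r : ℕ → Ed s, r 0 = x ∧ r T = ed s false (2 * s) hlast ∧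
      ∀ i, i < T → Rel s (r i) (r (i + 1)) := fun x => hN T (by omega) x _
  choose L hL0 hLT hL1 using hL
  -- walks from the first edge of the first cycle
  have hL' : ∀ (c : Bool) (y : Ed s), ∃ r : ℕ → Ed s, r 0 = o s ∧ r (ln T c - (T + 1)) = y ∧
      ∀ i, i < ln T c - (T + 1) → Rel s (r i) (r (i + 1)) := fun c y =>
    hN _ (by have := ln_ge T c; omega) (o s) y
  choose r hr0 hr1 hr2 using hL'
  refine exists_words (E := Ed s) (R := Rel s) (len := ln T) (ln_odd T) (rotE s) (rel_rot s) (wt s)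
    (fun x => rfl) (sum_wt s) T (fun c => by have := ln_ge T c; omega)
    L hL0 hL1 (fun c y i => r c y (i - (T + 1))) (fun c y => hr1 c y) ?_ ?_ (o s)
  · intro c y i hi hi'
    have := hr2 c y (i - (T + 1)) (by omega)
    rw [show i + 1 - (T + 1) = i - (T + 1) + 1 by omega]
    exact this
  · intro c x y
    rw [hLT, Nat.sub_self, hr0]
    right
    refine ⟨?_, rfl⟩
    show 2 * s + 1 = ln s false
    rw [ln_false]

/-- The states of the recursion. -/
abbrev St : Type := {s : ℕ // 1 ≤ s}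

noncomputable def nextSt (s : St) : St := ⟨(step s.2).choose, (step s.2).choose_spec.1⟩

noncomputable def seq : ℕ → St
  | 0 => ⟨1, le_rfl⟩
  | k + 1 => nextSt (seq k)

noncomputable def mm (s : St) : ℕ := (step s.2).choose_spec.2.choose

noncomputable def ww (s : St) : Bool → ℕ → ℕ → Ed s.1 := (step s.2).choose_spec.2.choose_spec.choose

lemma ww_spec (s : St) :
    (∀ c t, t < ln (nextSt s).1 c → ∀ i, i ≤ 2 * mm s →
      Rel s.1 (ww s c t i) (ww s c (t + 1) (2 * mm s - i))) ∧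
      (∀ c c', ww s c (ln (nextSt s).1 c) = ww s c' 0) ∧
      (∀ c t c' t', ∀ φ : Ed s.1 → ℝ,
        ∑ i ∈ range (2 * mm s + 1), (-1 : ℝ) ^ i * φ (ww s c t i) =
        ∑ i ∈ range (2 * mm s + 1), (-1 : ℝ) ^ i * φ (ww s c' t' i)) ∧
      (∀ c t a, ∃ i, i < mm s ∧ ww s c t i = a) ∧
      (∀ c t a, ∃ i, mm s < i ∧ i ≤ 2 * mm s ∧ ww s c t i = a) :=
  (step s.2).choose_spec.2.choose_spec.choose_spec

/-- The word at the tail of an edge. -/
noncomputable def GG (s : St) (b : Ed (nextSt s).1) (i : ℕ) : Ed s.1 := ww s b.1 b.2 i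

/-- The word at the head of an edge. -/
noncomputable def HH (s : St) (b : Ed (nextSt s).1) (i : ℕ) : Ed s.1 := ww s b.1 ((b.2 : ℕ) + 1) i

lemma HH_eq_GG (s : St) {b b' : Ed (nextSt s).1} (h : Rel (nextSt s).1 b b') : HH s b = GG s b' := by
  obtain ⟨c, k⟩ := b
  obtain ⟨c', k'⟩ := b'
  funext i
  show ww s c ((k : ℕ) + 1) i = ww s c' (k' : ℕ) i
  rcases h with ⟨h1, h2⟩ | ⟨h1, h2⟩
  · have h1 : c = c' := h1
    have h2 : (k : ℕ) + 1 = k' := h2
    rw [h2, h1]
  · have h1 : (k : ℕ) + 1 = ln (nextSt s).1 c := h1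
    have h2 : (k' : ℕ) = 0 := h2
    rw [h1, h2]
    exact congrFun ((ww_spec s).2.1 _ _) i

lemma rel_GG_HH (s : St) (b : Ed (nextSt s).1) (i : ℕ) (hi : i ≤ 2 * mm s) :
    Rel s.1 (GG s b i) (HH s b (2 * mm s - i)) :=
  (ww_spec s).1 b.1 b.2 b.2.2 i hi

end Pool.Agent.Helper302.Dip
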