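import Pool.Agent.Helper302.Dip.Null
import Pool.Agent.Helper302.Dip.Wedge

set_option autoImplicit false

namespace Pool.Agent.Helper302.Dip

/-- The tower. -/
noncomputable def theTower : Tower where
  E k := Ed (seq k).1
  fin k := inferInstance
  dec k := inferInstance
  ne k := ⟨o (seq k).1⟩
  m k := mm (seq k)
  G k := GG (seq k)
  H k := HH (seq k)
  comm k b i hi := by
    have h := rel_GG_HH (seq (k + 1)) b i hi
    exact HH_eq_GG (seq k) h
  apart k b i hi := rel_irrefl (seq k).2 (rel_GG_HH (seq k) b i hi)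
  alt k b b' φ := (ww_spec (seq k)).2.2.1 b.1 b.2 b'.1 b'.2 φ
  half1 k b a := (ww_spec (seq k)).2.2.2.1 b.1 b.2 a
  half2 k b a := (ww_spec (seq k)).2.2.2.2 b.1 b.2 a

end Pool.Agent.Helper302.Dip
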