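import Mathlib

set_option autoImplicit false

open Set Topology
open scoped unitInterval

namespace Pool.Agent.Helper302.Dip

/-- The ambient space of the dipole graph on a set of edges. -/
abbrev Amb (E : Type) := ℝ × (E → ℝ)

/-- The point with parameter `s` on the edge `e`, as a vector. -/
noncomputable def jv {E : Type} [DecidableEq E] (e : E) (s : I) : Amb E :=
  ((s : ℝ), Pi.single e ((s : ℝ) * (1 - s)))

/-- The dipole graph with edge set `E`: all edges run from one vertex (`s = 0`) to the other (`s = 1`). -/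
def Gam (E : Type) [DecidableEq E] : Type := {x : Amb E // ∃ e : E, ∃ s : I, jv e s = x}

noncomputable instance (E : Type) [DecidableEq E] : TopologicalSpace (Gam E) :=
  inferInstanceAs (TopologicalSpace {x : Amb E // ∃ e : E, ∃ s : I, jv e s = x})

instance (E : Type) [DecidableEq E] : T2Space (Gam E) :=
  inferInstanceAs (T2Space {x : Amb E // ∃ e : E, ∃ s : I, jv e s = x})

instance (E : Type) [DecidableEq E] [Finite E] : TopologicalSpace.MetrizableSpace (Gam E) := by
  have := Fintype.ofFinite E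
  exact inferInstanceAs
    (TopologicalSpace.MetrizableSpace {x : Amb E // ∃ e : E, ∃ s : I, jv e s = x})

instance (E : Type) [DecidableEq E] [Finite E] : SecondCountableTopology (Gam E) := by
  have := Fintype.ofFinite E
  exact inferInstanceAs
    (SecondCountableTopology {x : Amb E // ∃ e : E, ∃ s : I, jv e s = x})

/-- The point with parameter `s` on the edge `e`. -/
noncomputable def j {E : Type} [DecidableEq E] (e : E) (s : I) : Gam E := ⟨jv e s, e, s, rfl⟩

variable {E : Type} [DecidableEq E]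

lemma continuous_j (e : E) : Continuous (fun s : I => j e s) := by
  refine Continuous.subtype_mk ?_ _
  unfold jv
  refine Continuous.prodMk (by fun_prop) ?_
  refine continuous_pi fun i => ?_
  by_cases h : i = e
  · subst h; simp only [Pi.single_eq_same]; fun_prop
  · simp only [Pi.single_eq_of_ne h]; fun_prop

lemma exists_j (x : Gam E) : ∃ e : E, ∃ s : I, j e s = x := by
  obtain ⟨x, e, s, h⟩ := x
  exact ⟨e, s, Subtype.ext h⟩

lemma j_eq_iff {e e' : E} {s s' : I} :
    j e s = j e' s' ↔ s = s' ∧ (e = e' ∨ s = 0 ∨ s = 1) := by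
  constructor
  · intro h
    have h1 : jv e s = jv e' s' := congrArg Subtype.val h
    unfold jv at h1
    rw [Prod.mk.injEq] at h1
    have hs : s = s' := Subtype.ext h1.1
    subst hs
    refine ⟨rfl, ?_⟩
    by_cases he : e = e'
    · exact Or.inl he
    · right
      have h2 := congrFun h1.2 e
      rw [Pi.single_eq_same, Pi.single_eq_of_ne he] at h2
      rcases mul_eq_zero.mp h2 with h3 | h3
      · left; exact Subtype.ext h3
      · right; exact Subtype.ext (show (s : ℝ) = 1 by linarith)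
  · rintro ⟨rfl, h | h | h⟩
    · rw [h]
    · subst h; apply Subtype.ext; simp [j, jv]
    · subst h; apply Subtype.ext; simp [j, jv]

lemma j_zero (e e' : E) : j e 0 = j e' 0 := j_eq_iff.mpr ⟨rfl, Or.inr (Or.inl rfl)⟩
lemma j_one (e e' : E) : j e 1 = j e' 1 := j_eq_iff.mpr ⟨rfl, Or.inr (Or.inr rfl)⟩

/-- A map out of the graph is continuous as soon as it is continuous on every edge. -/
lemma continuous_of_edges [Finite E] {Z : Type} [TopologicalSpace Z] (h : Gam E → Z)
    (H : ∀ e, Continuous (fun s : I => h (j e s))) : Continuous h := by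
  rw [continuous_iff_isClosed]
  intro C hC
  have key : h ⁻¹' C = ⋃ e, (fun s => j e s) '' ((fun s => h (j e s)) ⁻¹' C) := by
    ext x
    constructor
    · intro hx
      obtain ⟨e, s, rfl⟩ := exists_j x
      exact mem_iUnion.mpr ⟨e, s, hx, rfl⟩
    · intro hx
      obtain ⟨e, s, hs, rfl⟩ := mem_iUnion.mp hx
      exact hs
  rw [key]
  exact isClosed_iUnion_of_finite
    (fun e => ((hC.preimage (H e)).isCompact.image (continuous_j e)).isClosed)

/-- Maps out of the graph, defined edge by edge. -/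
lemma exists_lift [Finite E] {Z : Type} [TopologicalSpace Z] (h : E → I → Z)
    (hc : ∀ e, Continuous (h e)) (h0 : ∀ e e', h e 0 = h e' 0) (h1 : ∀ e e', h e 1 = h e' 1) :
    ∃ F : C(Gam E, Z), ∀ e s, F (j e s) = h e s := by
  classical
  have hx : ∀ x : Gam E, ∃ z : Z, ∀ e s, j e s = x → h e s = z := by
    intro x
    obtain ⟨e, s, rfl⟩ := exists_j x
    refine ⟨h e s, fun e' s' hh => ?_⟩
    rw [j_eq_iff] at hh
    obtain ⟨rfl, hh | hh | hh⟩ := hh
    · rw [hh]
    · subst hh; exact h0 _ _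
    · subst hh; exact h1 _ _
  choose F hF using hx
  have hF' : ∀ e s, F (j e s) = h e s := fun e s => (hF (j e s) e s rfl).symm
  refine ⟨⟨F, continuous_of_edges F (fun e => ?_)⟩, hF'⟩
  simp only [hF']
  exact hc e

instance [Finite E] : CompactSpace (Gam E) := by
  constructor
  have : (univ : Set (Gam E)) = ⋃ e, range (fun s => j e s) := by
    ext x
    obtain ⟨e, s, rfl⟩ := exists_j x
    simp only [mem_univ, true_iff]
    exact mem_iUnion.mpr ⟨e, s, rfl⟩
  rw [this]
  exact isCompact_iUnion (fun e => isCompact_range (continuous_j e))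

instance [Nonempty E] : ConnectedSpace (Gam E) := by
  obtain ⟨e0⟩ := ‹Nonempty E›
  have : (univ : Set (Gam E)) = ⋃ e, range (fun s => j e s) := by
    ext x
    obtain ⟨e, s, rfl⟩ := exists_j x
    simp only [mem_univ, true_iff]
    exact mem_iUnion.mpr ⟨e, s, rfl⟩
  rw [connectedSpace_iff_univ, this]
  refine ⟨⟨j e0 0, mem_iUnion.mpr ⟨e0, 0, rfl⟩⟩, ?_⟩
  refine isPreconnected_iUnion ⟨j e0 0, ?_⟩ (fun e => isPreconnected_range (continuous_j e))
  refine mem_iInter.mpr (fun e => ⟨0, j_zero _ _⟩)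

/-! ### Points of subdivided intervals -/

/-- The point `(i + θ) / q` of the unit interval. -/
noncomputable def pt (q i : ℕ) (θ : I) : I := projIcc (0 : ℝ) 1 zero_le_one (((i : ℝ) + θ) / q)

lemma pt_mem {q i : ℕ} (hi : i < q) (θ : I) : ((i : ℝ) + θ) / q ∈ Icc (0 : ℝ) 1 := by
  have hq : (0 : ℝ) < q := by exact_mod_cast (Nat.zero_lt_of_lt hi)
  have h1 : (i : ℝ) + 1 ≤ q := by exact_mod_cast hi
  have := θ.2.1
  have := θ.2.2
  constructor
  · positivity
  · rw [div_le_one hq]; linarith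

lemma coe_pt {q i : ℕ} (hi : i < q) (θ : I) : ((pt q i θ : I) : ℝ) = ((i : ℝ) + θ) / q := by
  unfold pt
  rw [projIcc_of_mem _ (pt_mem hi θ)]

lemma continuous_pt (q i : ℕ) : Continuous (pt q i) := by
  unfold pt
  exact continuous_projIcc.comp (by fun_prop)

lemma exists_pt {q : ℕ} (hq : 0 < q) (u : I) : ∃ i, ∃ θ : I, i < q ∧ pt q i θ = u := by
  have hq' : (0 : ℝ) < q := by exact_mod_cast hq
  have hu0 := u.2.1
  have hu1 := u.2.2
  by_cases hu : (u : ℝ) = 1
  · refine ⟨q - 1, 1, by omega, Subtype.ext ?_⟩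
    rw [coe_pt (by omega), hu, Nat.cast_sub (by omega)]
    show ((q : ℝ) - (1 : ℕ) + 1) / q = 1
    rw [Nat.cast_one, sub_add_cancel, div_self hq'.ne']
  · have hu1' : (u : ℝ) < 1 := lt_of_le_of_ne hu1 hu
    have h0 : 0 ≤ (u : ℝ) * q := by positivity
    have hlt : ⌊(u : ℝ) * q⌋₊ < q := by
      rw [Nat.floor_lt h0]
      nlinarith
    refine ⟨⌊(u : ℝ) * q⌋₊, ⟨(u : ℝ) * q - ⌊(u : ℝ) * q⌋₊, ?_, ?_⟩, hlt, Subtype.ext ?_⟩
    · have := Nat.floor_le h0; linarith
    · have := Nat.lt_floor_add_one ((u : ℝ) * q); linarith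
    · rw [coe_pt hlt]
      show ((⌊(u : ℝ) * q⌋₊ : ℝ) + ((u : ℝ) * q - ⌊(u : ℝ) * q⌋₊)) / q = u
      field_simp
      ring

lemma pt_eq {q i i' : ℕ} (hi : i < q) (hi' : i' < q) {θ θ' : I} (h : pt q i θ = pt q i' θ') :
    (i = i' ∧ θ = θ') ∨ (i' = i + 1 ∧ θ = 1 ∧ θ' = 0) ∨ (i = i' + 1 ∧ θ' = 1 ∧ θ = 0) := by
  have hq' : (0 : ℝ) < q := by exact_mod_cast (Nat.zero_lt_of_lt hi)
  have h1 : ((i : ℝ) + θ) / q = ((i' : ℝ) + θ') / q := by
    rw [← coe_pt hi, ← coe_pt hi', h]
  have h2 : (i : ℝ) + θ = (i' : ℝ) + θ' := by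
    field_simp at h1; exact h1
  have a0 := θ.2.1
  have a1 := θ.2.2
  have b0 := θ'.2.1
  have b1 := θ'.2.2
  rcases lt_trichotomy i i' with hlt | heq | hgt
  · right; left
    have h3 : (i : ℝ) + 1 ≤ i' := by exact_mod_cast hlt
    have h4 : (i' : ℝ) = i + 1 := by linarith
    refine ⟨by exact_mod_cast h4, ?_, ?_⟩
    · exact Subtype.ext (show (θ : ℝ) = 1 by linarith)
    · exact Subtype.ext (show (θ' : ℝ) = 0 by linarith)
  · left
    subst heq
    refine ⟨rfl, Subtype.ext (by linarith)⟩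
  · right; right
    have h3 : (i' : ℝ) + 1 ≤ i := by exact_mod_cast hgt
    have h4 : (i : ℝ) = i' + 1 := by linarith
    refine ⟨by exact_mod_cast h4, ?_, ?_⟩
    · exact Subtype.ext (show (θ' : ℝ) = 1 by linarith)
    · exact Subtype.ext (show (θ : ℝ) = 0 by linarith)

/-- Gluing finitely many paths. -/
lemma glue {Z : Type} [TopologicalSpace Z] {q : ℕ} (hq : 0 < q) (F : ℕ → I → Z)
    (hF : ∀ i, Continuous (F i)) (hg : ∀ i, i + 1 < q → F i 1 = F (i + 1) 0) :
    ∃ P : I → Z, Continuous P ∧ ∀ i, i < q → ∀ θ : I, P (pt q i θ) = F i θ := by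
  have hx : ∀ u : I, ∃ z : Z, ∀ i, i < q → ∀ θ : I, pt q i θ = u → F i θ = z := by
    intro u
    obtain ⟨i, θ, hi, rfl⟩ := exists_pt hq u
    refine ⟨F i θ, fun i' hi' θ' h => ?_⟩
    rcases pt_eq hi' hi h with ⟨rfl, rfl⟩ | ⟨h1, rfl, rfl⟩ | ⟨h1, rfl, rfl⟩
    · rfl
    · subst h1; exact hg _ hi
    · subst h1; exact (hg _ hi').symm
  choose P hP using hx
  have hP' : ∀ i, i < q → ∀ θ : I, P (pt q i θ) = F i θ := fun i hi θ =>
    (hP (pt q i θ) i hi θ rfl).symm
  refine ⟨P, ?_, hP'⟩
  rw [continuous_iff_isClosed]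
  intro C hC
  have key : P ⁻¹' C = ⋃ i : Fin q, (pt q i) '' ((F i) ⁻¹' C) := by
    ext u
    constructor
    · intro hu
      obtain ⟨i, θ, hi, rfl⟩ := exists_pt hq u
      refine mem_iUnion.mpr ⟨⟨i, hi⟩, θ, ?_, rfl⟩
      have := hP' i hi θ
      simpa [mem_preimage, ← this] using hu
    · intro hu
      obtain ⟨i, θ, hθ, rfl⟩ := mem_iUnion.mp hu
      have := hP' i i.2 θ
      simpa [mem_preimage, this] using hθ
  rw [key]
  exact isClosed_iUnion_of_finite
    (fun i => ((hC.preimage (hF i)).isCompact.image (continuous_pt q i)).isClosed)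

/-- The parameter on an edge traversed at step `i`: forward if `i` is even, backward otherwise. -/
noncomputable def tw (i : ℕ) (θ : I) : I := if Even i then θ else σ θ

lemma continuous_tw (i : ℕ) : Continuous (tw i) := by
  unfold tw
  split_ifs
  · exact continuous_id
  · exact unitInterval.continuous_symm

lemma tw_symm (i : ℕ) (θ : I) : tw i (σ θ) = σ (tw i θ) := by
  unfold tw
  split_ifs <;> rfl

lemma tw_tw (i : ℕ) (θ : I) : tw i (tw i θ) = θ := by
  unfold tw
  split_ifs <;> simp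

lemma tw_rev {m i : ℕ} (hi : i ≤ 2 * m) (θ : I) : tw (2 * m - i) θ = tw i θ := by
  have : Even (2 * m - i) ↔ Even i := by
    rw [Nat.even_sub hi]; simp
  unfold tw
  simp only [this]

lemma symm_pt {m i : ℕ} (hi : i ≤ 2 * m) (θ : I) :
    σ (pt (2 * m + 1) i θ) = pt (2 * m + 1) (2 * m - i) (σ θ) := by
  apply Subtype.ext
  rw [coe_pt (by omega), unitInterval.coe_symm_eq, coe_pt (by omega), Nat.cast_sub hi]
  simp
  field_simp
  ring

/-- The path in the graph along a word of odd length. -/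
lemma exists_path (m : ℕ) (a : ℕ → E) : ∃ P : I → Gam E, Continuous P ∧
    (∀ i, i ≤ 2 * m → ∀ θ : I, P (pt (2 * m + 1) i θ) = j (a i) (tw i θ)) ∧
    P 0 = j (a 0) 0 ∧ P 1 = j (a 0) 1 := by
  obtain ⟨P, hPc, hP⟩ := glue (Z := Gam E) (q := 2 * m + 1) (by omega)
    (fun i θ => j (a i) (tw i θ)) (fun i => (continuous_j _).comp (continuous_tw i)) (by
      intro i hi
      by_cases h : Even i
      · have h' : ¬ Even (i + 1) := by rw [Nat.even_add_one]; simpa using h
        simp only [tw, h, h', if_true, if_false, unitInterval.symm_zero]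
        exact j_one _ _
      · have h' : Even (i + 1) := by rw [Nat.even_add_one]; exact h
        simp only [tw, h, h', if_true, if_false, unitInterval.symm_one]
        exact j_zero _ _)
  refine ⟨P, hPc, fun i hi θ => hP i (by omega) θ, ?_, ?_⟩
  · have h0 : (0 : I) = pt (2 * m + 1) 0 0 := by
      apply Subtype.ext; rw [coe_pt (by omega)]; simp
    conv_lhs => rw [h0]
    rw [hP 0 (by omega)]
    simp [tw]
  · have h1 : (1 : I) = pt (2 * m + 1) (2 * m) 1 := by
      apply Subtype.ext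
      rw [coe_pt (by omega)]
      show (1 : ℝ) = (((2 * m : ℕ) : ℝ) + 1) / ((2 * m + 1 : ℕ) : ℝ)
      have : (2 : ℝ) * m + 1 ≠ 0 := by positivity
      push_cast
      rw [div_self this]
    conv_lhs => rw [h1]
    rw [hP (2 * m) (by omega)]
    simp only [tw, even_two, Even.mul_right, if_true]
    exact j_one _ _

end Pool.Agent.Helper302.Dip
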