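import Pool.Agent.Helper302.Dip.Graph

set_option autoImplicit false

open Set Topology
open scoped unitInterval

namespace Pool.Agent.Helper302.Dip

variable {E : Type} [DecidableEq E]

lemma isClosed_arcs [Finite E] (S : E → Set I) (hS : ∀ e, IsClosed (S e)) :
    IsClosed (⋃ e, (fun t => j e t) '' (S e)) :=
  isClosed_iUnion_of_finite (fun e => ((hS e).isCompact.image (continuous_j e)).isClosed)

/-- If a preconnected set is covered by two families of closed arcs and it has points in both, then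
it has a point in both. -/
lemma exists_mem_both [Finite E] {K : Set (Gam E)} (hK : IsPreconnected K)
    (S S' : E → Set I) (hS : ∀ e, IsClosed (S e)) (hS' : ∀ e, IsClosed (S' e))
    (hcov : ∀ e t, j e t ∈ K → t ∈ S e ∨ t ∈ S' e)
    (h1 : ∃ e t, t ∈ S e ∧ j e t ∈ K) (h2 : ∃ e t, t ∈ S' e ∧ j e t ∈ K) :
    ∃ e t e' t', t ∈ S e ∧ t' ∈ S' e' ∧ j e t = j e' t' ∧ j e t ∈ K := by
  rw [isPreconnected_closed_iff] at hK
  have := hK (⋃ e, (fun t => j e t) '' (S e)) (⋃ e, (fun t => j e t) '' (S' e))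
    (isClosed_arcs S hS) (isClosed_arcs S' hS') (by
      intro x hx
      obtain ⟨e, t, rfl⟩ := exists_j x
      rcases hcov e t hx with h | h
      · exact Or.inl (mem_iUnion.mpr ⟨e, t, h, rfl⟩)
      · exact Or.inr (mem_iUnion.mpr ⟨e, t, h, rfl⟩)) (by
      obtain ⟨e, t, ht, hk⟩ := h1
      exact ⟨j e t, hk, mem_iUnion.mpr ⟨e, t, ht, rfl⟩⟩) (by
      obtain ⟨e, t, ht, hk⟩ := h2
      exact ⟨j e t, hk, mem_iUnion.mpr ⟨e, t, ht, rfl⟩⟩)
  obtain ⟨x, hxK, hx1, hx2⟩ := this
  obtain ⟨e, t, ht, rfl⟩ := mem_iUnion.mp hx1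
  obtain ⟨e', t', ht', h⟩ := mem_iUnion.mp hx2
  exact ⟨e, t, e', t', ht, ht', h.symm, hxK⟩

/-- A preconnected set which contains a point on one edge and the mirror image of that point on another
edge contains one half of some edge. -/
lemma half_edge [Finite E] {K : Set (Gam E)} (hK : IsPreconnected K) {a c : E} (hac : a ≠ c) (s : I)
    (h1 : j a s ∈ K) (h2 : j c (σ s) ∈ K) :
    ∃ e, (∀ t : I, (t : ℝ) ≤ 1 / 2 → j e t ∈ K) ∨ (∀ t : I, 1 / 2 ≤ (t : ℝ) → j e t ∈ K) := by
  by_contra hcon
  push Not at hcon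
  choose hA hB using hcon
  choose r hr hrK using hA
  choose r' hr' hrK' using hB
  have hsc : ((σ s : I) : ℝ) = 1 - s := unitInterval.coe_symm_eq s
  -- Step 1
  have S1 : ∀ e t, j e t ∈ K → r e < t := by
    by_contra hne
    push Not at hne
    obtain ⟨e0, t0, hk0, ht0⟩ := hne
    have hex : ∃ e t, t ∈ {t : I | r e ≤ t} ∧ j e t ∈ K := by
      by_contra hno
      push Not at hno
      have q1 : ¬ (r a ≤ s) := fun h => hno a s h h1
      have q2 : ¬ (r c ≤ σ s) := fun h => hno c (σ s) h h2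
      have q1' : (s : ℝ) < r a := lt_of_not_ge q1
      have q2' : ((σ s : I) : ℝ) < r c := lt_of_not_ge q2
      have := hr a
      have := hr c
      linarith
    obtain ⟨e, t, e', t', ht, ht', hj, hk⟩ := exists_mem_both hK (fun e => {t : I | t ≤ r e})
      (fun e => {t : I | r e ≤ t}) (fun e => isClosed_Iic) (fun e => isClosed_Ici)
      (fun e t _ => le_total t (r e)) ⟨e0, t0, ht0, hk0⟩ hex
    obtain ⟨rfl, hh⟩ := j_eq_iff.mp hj
    rcases hh with rfl | rfl | rfl
    · have : t = r e := le_antisymm ht ht'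
      subst this; exact hrK _ hk
    · have : r e' = 0 := le_antisymm ht' (r e').2.1
      apply hrK e'
      rw [this, ← hj]; exact hk
    · have h3 : ((1 : I) : ℝ) ≤ r e := ht
      have := hr e
      simp at h3
      linarith
  -- Step 2
  have S2 : ∀ e t, j e t ∈ K → t < r' e := by
    by_contra hne
    push Not at hne
    obtain ⟨e0, t0, hk0, ht0⟩ := hne
    have hex : ∃ e t, t ∈ {t : I | t ≤ r' e} ∧ j e t ∈ K := by
      by_contra hno
      push Not at hno
      have q1 : ¬ (s ≤ r' a) := fun h => hno a s h h1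
      have q2 : ¬ (σ s ≤ r' c) := fun h => hno c (σ s) h h2
      have q1' : (r' a : ℝ) < s := lt_of_not_ge q1
      have q2' : (r' c : ℝ) < (σ s : I) := lt_of_not_ge q2
      have := hr' a
      have := hr' c
      linarith
    obtain ⟨e, t, e', t', ht, ht', hj, hk⟩ := exists_mem_both hK (fun e => {t : I | t ≤ r' e})
      (fun e => {t : I | r' e ≤ t}) (fun e => isClosed_Iic) (fun e => isClosed_Ici)
      (fun e t _ => le_total t (r' e)) hex ⟨e0, t0, ht0, hk0⟩
    obtain ⟨rfl, hh⟩ := j_eq_iff.mp hj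
    rcases hh with rfl | rfl | rfl
    · have : t = r' e := le_antisymm ht ht'
      subst this; exact hrK' _ hk
    · have h3 : (r' e' : ℝ) ≤ ((0 : I) : ℝ) := ht'
      have := hr' e'
      simp at h3
      linarith
    · have : r' e = 1 := le_antisymm (r' e).2.2 ht
      apply hrK' e
      rw [this]; exact hk
  -- Step 3
  obtain ⟨e, t, e', t', ht, ht', hj, hk⟩ := exists_mem_both hK
    (fun e => {t : I | e = a}) (fun e => {t : I | e ≠ a})
    (fun e => by
      by_cases h : e = a
      · simp [h]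
      · simp [h]) (fun e => by
      by_cases h : e = a
      · simp [h]
      · simp [h])
    (fun e t _ => em _) ⟨a, s, rfl, h1⟩ ⟨c, σ s, hac.symm, h2⟩
  have ht : e = a := ht
  have ht' : e' ≠ a := ht'
  subst ht
  obtain ⟨rfl, hh⟩ := j_eq_iff.mp hj
  rcases hh with rfl | rfl | rfl
  · exact ht' rfl
  · have := S1 _ _ hk
    exact absurd this (not_lt.mpr (r e).2.1)
  · have := S2 _ _ hk
    exact absurd this (not_lt.mpr (r' e).2.2)

end Pool.Agent.Helper302.Dip
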