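import Pool.Agent.Helper302.Dip.Wind

set_option autoImplicit false

open Set Topology
open scoped unitInterval

namespace Pool.Agent.Helper302.Dip

namespace Tower

variable (T : Tower)

/-- The inverse limit of the tower. -/
def Lim : Type := {x : ∀ k, Gam (T.E k) // ∀ k, T.g k (x (k + 1)) = x k}

noncomputable instance : TopologicalSpace T.Lim :=
  inferInstanceAs (TopologicalSpace {x : ∀ k, Gam (T.E k) // ∀ k, T.g k (x (k + 1)) = x k})

instance : T2Space T.Lim :=
  inferInstanceAs (T2Space {x : ∀ k, Gam (T.E k) // ∀ k, T.g k (x (k + 1)) = x k})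

instance : SecondCountableTopology T.Lim :=
  TopologicalSpace.Subtype.secondCountableTopology
    {x : ∀ k, Gam (T.E k) | ∀ k, T.g k (x (k + 1)) = x k}

lemma isClosed_lim : IsClosed {x : ∀ k, Gam (T.E k) | ∀ k, T.g k (x (k + 1)) = x k} := by
  rw [ofPred_forall]
  refine isClosed_iInter fun k => isClosed_eq ?_ ?_
  · exact (T.g k).continuous.comp (continuous_apply (k + 1))
  · exact continuous_apply k

instance : CompactSpace T.Lim :=
  isCompact_iff_compactSpace.mp T.isClosed_lim.isCompact

instance : TopologicalSpace.MetrizableSpace T.Lim :=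
  TopologicalSpace.metrizableSpace_of_t3_secondCountable T.Lim

/-- The projections. -/
noncomputable def proj (k : ℕ) : C(T.Lim, Gam (T.E k)) :=
  ⟨fun x => x.1 k, (continuous_apply k).comp continuous_subtype_val⟩

lemma g_proj (k : ℕ) (x : T.Lim) : T.g k (T.proj (k + 1) x) = T.proj k x := x.2 k

lemma ext_proj {x y : T.Lim} (h : ∀ k, T.proj k x = T.proj k y) : x = y :=
  Subtype.ext (funext h)

lemma proj_lower {x y : T.Lim} {k : ℕ} (h : T.proj k x = T.proj k y) :
    ∀ i, i ≤ k → T.proj i x = T.proj i y := by
  induction k with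
  | zero => intro i hi; obtain rfl : i = 0 := by omega
            exact h
  | succ k ih =>
    intro i hi
    rcases Nat.lt_or_ge i (k + 1) with h1 | h1
    · exact ih (by rw [← T.g_proj k x, ← T.g_proj k y, h]) i (by omega)
    · obtain rfl : i = k + 1 := by omega
      exact h

/-- A closed set meeting all the fibres of the projections over the images of a point contains it. -/
lemma mem_of_proj {K : Set T.Lim} (hK : IsClosed K) (y : T.Lim)
    (h : ∀ k, ∃ x ∈ K, T.proj k x = T.proj k y) : y ∈ K := by
  have key : (⋂ k, (K ∩ {x | T.proj k x = T.proj k y})).Nonempty := by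
    apply IsCompact.nonempty_iInter_of_sequence_nonempty_isCompact_isClosed
    · intro k x hx
      exact ⟨hx.1, T.proj_lower hx.2 k (by omega)⟩
    · intro k
      obtain ⟨x, hx, hxy⟩ := h k
      exact ⟨x, hx, hxy⟩
    · exact (hK.inter (isClosed_eq (T.proj 0).continuous continuous_const)).isCompact
    · intro k
      exact hK.inter (isClosed_eq (T.proj k).continuous continuous_const)
  obtain ⟨x, hx⟩ := key
  rw [mem_iInter] at hx
  have : x = y := T.ext_proj (fun k => (hx k).2)
  rw [← this]
  exact (hx 0).1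

lemma exists_thread_below (n : ℕ) (y : Gam (T.E n)) : ∃ x : ∀ k, Gam (T.E k),
    x n = y ∧ ∀ i, i < n → T.g i (x (i + 1)) = x i := by
  classical
  induction n with
  | zero =>
    obtain ⟨e⟩ : ∃ e : ∀ k, T.E k, True := ⟨fun k => (T.ne k).some, trivial⟩
    refine ⟨Function.update (fun k => j (e k) 0) 0 y, by simp, fun i hi => absurd hi (by omega)⟩
  | succ n ih =>
    obtain ⟨x, hx, hx'⟩ := ih (T.g n y)
    refine ⟨Function.update x (n + 1) y, by simp, fun i hi => ?_⟩
    rcases Nat.lt_or_ge i n with h | h
    · rw [Function.update_of_ne (by omega), Function.update_of_ne (by omega)]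
      exact hx' i h
    · obtain rfl : i = n := by omega
      rw [Function.update_self, Function.update_of_ne (by omega), hx]

lemma exists_thread_above (k : ℕ) (y : Gam (T.E k)) (n : ℕ) : ∃ x : ∀ k, Gam (T.E k),
    x k = y ∧ ∀ i, i < k + n → T.g i (x (i + 1)) = x i := by
  classical
  induction n with
  | zero => exact T.exists_thread_below k y
  | succ n ih =>
    obtain ⟨x, hx, hx'⟩ := ih
    obtain ⟨z, hz⟩ := T.g_surj (k + n) (x (k + n))
    refine ⟨Function.update x (k + n + 1) z, ?_, fun i hi => ?_⟩
    · rw [Function.update_of_ne (by omega)]; exact hx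
    · rcases Nat.lt_or_ge i (k + n) with h | h
      · rw [Function.update_of_ne (by omega), Function.update_of_ne (by omega)]
        exact hx' i h
      · obtain rfl : i = k + n := by omega
        rw [Function.update_self, Function.update_of_ne (by omega), hz]

lemma proj_surj (k : ℕ) : Function.Surjective (T.proj k) := by
  intro y
  have key : (⋂ n, ({x : ∀ k, Gam (T.E k) | x k = y} ∩
      {x : ∀ k, Gam (T.E k) | ∀ i, i < k + n → T.g i (x (i + 1)) = x i})).Nonempty := by
    apply IsCompact.nonempty_iInter_of_sequence_nonempty_isCompact_isClosed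
    · intro n x hx
      exact ⟨hx.1, fun i hi => hx.2 i (by omega)⟩
    · intro n
      obtain ⟨x, hx, hx'⟩ := T.exists_thread_above k y n
      exact ⟨x, hx, hx'⟩
    · refine IsClosed.isCompact (IsClosed.inter (isClosed_eq (continuous_apply k) continuous_const) ?_)
      simp only [ofPred_forall]
      exact isClosed_iInter fun i => isClosed_iInter fun _ => isClosed_eq
        ((T.g i).continuous.comp (continuous_apply (i + 1))) (continuous_apply i)
    · intro n
      refine IsClosed.inter (isClosed_eq (continuous_apply k) continuous_const) ?_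
      simp only [ofPred_forall]
      exact isClosed_iInter fun i => isClosed_iInter fun _ => isClosed_eq
        ((T.g i).continuous.comp (continuous_apply (i + 1))) (continuous_apply i)
  obtain ⟨x, hx⟩ := key
  rw [mem_iInter] at hx
  refine ⟨⟨x, fun i => (hx (i + 1)).2 i (by omega)⟩, (hx 0).1⟩

instance : Nontrivial T.Lim := by
  obtain ⟨e⟩ := T.ne 0
  obtain ⟨x, hx⟩ := T.proj_surj 0 (j e 0)
  obtain ⟨y, hy⟩ := T.proj_surj 0 (j e 1)
  refine ⟨x, y, fun h => ?_⟩
  rw [h, hy, j_eq_iff] at hx
  exact one_ne_zero hx.1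

instance : ConnectedSpace T.Lim := by
  rw [connectedSpace_iff_univ]
  refine ⟨univ_nonempty, ?_⟩
  rw [isPreconnected_closed_iff]
  intro A B hA hB hcov hAne hBne
  rw [univ_inter] at hAne hBne ⊢
  -- pairs of points of `A` and `B` with the same projection
  have key : (⋂ k, ((A ×ˢ B) ∩ {p : T.Lim × T.Lim | T.proj k p.1 = T.proj k p.2})).Nonempty := by
    apply IsCompact.nonempty_iInter_of_sequence_nonempty_isCompact_isClosed
    · intro k p hp
      exact ⟨hp.1, T.proj_lower hp.2 k (by omega)⟩
    · intro k
      have hpre : IsPreconnected (univ : Set (Gam (T.E k))) := isPreconnected_univ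
      rw [isPreconnected_closed_iff] at hpre
      obtain ⟨z, -, ⟨a, ha, haz⟩, ⟨b, hb, hbz⟩⟩ := hpre (T.proj k '' A) (T.proj k '' B)
        (hA.isCompact.image (T.proj k).continuous).isClosed
        (hB.isCompact.image (T.proj k).continuous).isClosed (by
          intro y _
          obtain ⟨x, rfl⟩ := T.proj_surj k y
          rcases hcov (mem_univ x) with h | h
          · exact Or.inl ⟨x, h, rfl⟩
          · exact Or.inr ⟨x, h, rfl⟩)
        (by obtain ⟨a, ha⟩ := hAne; exact ⟨T.proj k a, mem_univ _, a, ha, rfl⟩)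
        (by obtain ⟨b, hb⟩ := hBne; exact ⟨T.proj k b, mem_univ _, b, hb, rfl⟩)
      exact ⟨(a, b), ⟨ha, hb⟩, haz.trans hbz.symm⟩
    · exact ((hA.prod hB).inter (isClosed_eq ((T.proj 0).continuous.comp continuous_fst)
        ((T.proj 0).continuous.comp continuous_snd))).isCompact
    · intro k
      exact (hA.prod hB).inter (isClosed_eq ((T.proj k).continuous.comp continuous_fst)
        ((T.proj k).continuous.comp continuous_snd))
  obtain ⟨p, hp⟩ := key
  rw [mem_iInter] at hp
  have h12 : p.1 = p.2 := T.ext_proj (fun k => (hp k).2)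
  exact ⟨p.1, (hp 0).1.1, h12 ▸ (hp 0).1.2⟩

/-- The self-map. -/
noncomputable def F : C(T.Lim, T.Lim) where
  toFun x := ⟨fun k => T.f k (T.proj (k + 1) x), fun k => by
    show T.g k (T.f (k + 1) (T.proj (k + 2) x)) = T.f k (T.proj (k + 1) x)
    rw [T.comm_maps, T.g_proj]⟩
  continuous_toFun := by
    refine Continuous.subtype_mk ?_ _
    exact continuous_pi fun k => (T.f k).continuous.comp (T.proj (k + 1)).continuous

lemma proj_F (k : ℕ) (x : T.Lim) : T.proj k (T.F x) = T.f k (T.proj (k + 1) x) := rfl

lemma irreducible (x : T.Lim) (K : Set T.Lim) (hKc : IsClosed K) (hK : IsPreconnected K)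
    (h1 : x ∈ K) (h2 : T.F x ∈ K) : K = univ := by
  rw [eq_univ_iff_forall]
  intro y
  refine T.mem_of_proj hKc y (fun k => ?_)
  have hpre : IsPreconnected (T.proj (k + 1) '' K) := hK.image _ (T.proj (k + 1)).continuous.continuousOn
  obtain ⟨z, ⟨w, hw, rfl⟩, hz⟩ := T.image_full k (T.proj (k + 2) x) _ hpre
    ⟨x, h1, (T.g_proj (k + 1) x).symm⟩ ⟨T.F x, h2, T.proj_F (k + 1) x⟩ (T.proj k y)
  exact ⟨w, hw, by rw [← hz, T.g_proj]⟩

lemma F_surj : Function.Surjective T.F := by
  obtain ⟨x⟩ : Nonempty T.Lim := inferInstance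
  have h := T.irreducible (T.F x) (range T.F) (isCompact_range T.F.continuous).isClosed
    (isPreconnected_range T.F.continuous) ⟨x, rfl⟩ ⟨T.F x, rfl⟩
  exact range_eq_univ.mp h

end Tower

end Pool.Agent.Helper302.Dip
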