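import Pool.Agent.Helper302.Dip.Limit

set_option autoImplicit false

open Set Topology
open scoped unitInterval

namespace Pool.Agent.Helper302.Dip

namespace Tower

variable (T : Tower)

lemma factor_up {n n' : ℕ} (hn : n ≤ n') (h : C(Gam (T.E n), ℝ)) :
    ∃ h' : C(Gam (T.E n'), ℝ), ∀ x, h' (T.proj n' x) = h (T.proj n x) := by
  induction n', hn using Nat.le_induction with
  | base => exact ⟨h, fun _ => rfl⟩
  | succ n' _ ih =>
    obtain ⟨h', hh'⟩ := ih
    refine ⟨h'.comp (T.g n'), fun x => ?_⟩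
    rw [← hh', ← T.g_proj n' x]
    rfl

/-- The algebra of functions factoring through some projection. -/
noncomputable def cyl : Subalgebra ℝ C(T.Lim, ℝ) where
  carrier := {h | ∃ n, ∃ h' : C(Gam (T.E n), ℝ), ∀ x, h x = h' (T.proj n x)}
  mul_mem' := by
    rintro a b ⟨n, a', ha⟩ ⟨n', b', hb⟩
    obtain ⟨a'', ha''⟩ := T.factor_up (le_max_left n n') a'
    obtain ⟨b'', hb''⟩ := T.factor_up (le_max_right n n') b'
    refine ⟨max n n', a'' * b'', fun x => ?_⟩
    rw [ContinuousMap.mul_apply, ContinuousMap.mul_apply, ha, hb, ha'', hb'']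
  add_mem' := by
    rintro a b ⟨n, a', ha⟩ ⟨n', b', hb⟩
    obtain ⟨a'', ha''⟩ := T.factor_up (le_max_left n n') a'
    obtain ⟨b'', hb''⟩ := T.factor_up (le_max_right n n') b'
    refine ⟨max n n', a'' + b'', fun x => ?_⟩
    rw [ContinuousMap.add_apply, ContinuousMap.add_apply, ha, hb, ha'', hb'']
  algebraMap_mem' := by
    intro r
    exact ⟨0, ContinuousMap.const _ r, fun x => rfl⟩

lemma cyl_separates : T.cyl.SeparatesPoints := by
  intro x y hxy
  have hk : ∃ k, T.proj k x ≠ T.proj k y := by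
    by_contra h
    push Not at h
    exact hxy (T.ext_proj h)
  obtain ⟨k, hk⟩ := hk
  let _ := TopologicalSpace.metrizableSpaceMetric (Gam (T.E k))
  let d : C(Gam (T.E k), ℝ) := ⟨fun z => dist z (T.proj k y), by fun_prop⟩
  refine ⟨fun z => d (T.proj k z), ⟨d.comp (T.proj k), ⟨k, d, fun x => rfl⟩, rfl⟩, ?_⟩
  show dist (T.proj k x) (T.proj k y) ≠ dist (T.proj k y) (T.proj k y)
  rw [dist_self]
  exact dist_ne_zero.mpr hk

lemma exists_approx (φ : C(T.Lim, ℝ)) (ε : ℝ) (hε : 0 < ε) :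
    ∃ n, ∃ h : C(Gam (T.E n), ℝ), ∀ x, |h (T.proj n x) - φ x| < ε := by
  obtain ⟨⟨a, n, h, ha⟩, hb⟩ :=
    ContinuousMap.exists_mem_subalgebra_near_continuous_of_separatesPoints T.cyl T.cyl_separates φ
      φ.continuous ε hε
  refine ⟨n, h, fun x => ?_⟩
  have := hb x
  rw [← ha]
  exact this

lemma exists_circle_approx (φ : C(T.Lim, Circle)) :
    ∃ n, ∃ ψ : C(Gam (T.E n), Circle), ∀ x,
      0 < ((φ x * (ψ (T.proj n x))⁻¹ : Circle) : ℂ).re := by
  have hcφ : Continuous (fun x => (φ x : ℂ)) := continuous_subtype_val.comp φ.continuous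
  obtain ⟨n1, h1, H1⟩ := T.exists_approx ⟨fun x => (φ x : ℂ).re, Complex.continuous_re.comp hcφ⟩
    (1 / 4) (by norm_num)
  obtain ⟨n2, h2, H2⟩ := T.exists_approx ⟨fun x => (φ x : ℂ).im, Complex.continuous_im.comp hcφ⟩
    (1 / 4) (by norm_num)
  obtain ⟨n, a, b, ha, hb⟩ : ∃ n, ∃ a b : C(Gam (T.E n), ℝ),
      (∀ x, |a (T.proj n x) - (φ x : ℂ).re| < 1 / 4) ∧
      (∀ x, |b (T.proj n x) - (φ x : ℂ).im| < 1 / 4) := by
    obtain ⟨a, ha⟩ := T.factor_up (le_max_left n1 n2) h1
    obtain ⟨b, hb⟩ := T.factor_up (le_max_right n1 n2) h2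
    exact ⟨max n1 n2, a, b, fun x => by rw [ha]; exact H1 x, fun x => by rw [hb]; exact H2 x⟩
  let z : Gam (T.E n) → ℂ := fun y => (a y : ℂ) + (b y : ℂ) * Complex.I
  have hz : Continuous z := by
    have h1 := a.continuous
    have h2 := b.continuous
    simp only [z]
    fun_prop
  have hdist : ∀ x, ‖z (T.proj n x) - φ x‖ < 1 / 2 := by
    intro x
    have e1 : |(z (T.proj n x) - φ x).re| < 1 / 4 := by
      have := ha x
      simp only [z, Complex.sub_re, Complex.add_re, Complex.ofReal_re, Complex.mul_re,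
        Complex.I_re, Complex.I_im, Complex.ofReal_im, mul_zero, zero_mul, sub_zero, add_zero]
      exact this
    have e2 : |(z (T.proj n x) - φ x).im| < 1 / 4 := by
      have := hb x
      simp only [z, Complex.sub_im, Complex.add_im, Complex.ofReal_im, Complex.mul_im,
        Complex.I_re, Complex.I_im, Complex.ofReal_re, mul_zero, mul_one, zero_add, add_zero]
      exact this
    have := Complex.norm_le_abs_re_add_abs_im (z (T.proj n x) - φ x)
    linarith
  have hzne : ∀ y, z y ≠ 0 := by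
    intro y h
    obtain ⟨x, rfl⟩ := T.proj_surj n y
    have := hdist x
    rw [h, zero_sub, norm_neg, Circle.norm_coe] at this
    norm_num at this
  have hmem : ∀ y, z y / (‖z y‖ : ℂ) ∈ Submonoid.unitSphere ℂ := by
    intro y
    have hn : ‖z y‖ ≠ 0 := norm_ne_zero_iff.mpr (hzne y)
    refine mem_sphere_zero_iff_norm.2 ?_
    rw [norm_div, Complex.norm_real, norm_norm, div_self hn]
  let ψ : C(Gam (T.E n), Circle) := ⟨fun y => (⟨z y / (‖z y‖ : ℂ), hmem y⟩ : Submonoid.unitSphere ℂ),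
    Continuous.subtype_mk (hz.div (Complex.continuous_ofReal.comp hz.norm) (fun y => by
      simpa using hzne y)) _⟩
  refine ⟨n, ψ, fun x => ?_⟩
  have hn : 0 < ‖z (T.proj n x)‖ := norm_pos_iff.mpr (hzne _)
  have hψ : ((ψ (T.proj n x) : Circle) : ℂ) = z (T.proj n x) / (‖z (T.proj n x)‖ : ℂ) := rfl
  rw [Circle.coe_mul, Circle.coe_inv_eq_conj, hψ, map_div₀, Complex.conj_ofReal, ← mul_div_assoc,
    Complex.div_ofReal_re]
  refine div_pos ?_ hn
  -- `|φ - z| < 1/2` gives `Re (φ * conj z) > 1/2`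
  have hφ : ‖(φ x : ℂ)‖ = 1 := Circle.norm_coe _
  have key : ((φ x : ℂ) * (starRingEnd ℂ) (z (T.proj n x))).re =
      1 + ((φ x : ℂ) * (starRingEnd ℂ) (z (T.proj n x) - φ x)).re := by
    rw [map_sub, mul_sub, Complex.mul_conj, Complex.normSq_eq_norm_sq, hφ]
    simp
  rw [key]
  have hb : |((φ x : ℂ) * (starRingEnd ℂ) (z (T.proj n x) - φ x)).re| ≤
      ‖z (T.proj n x) - φ x‖ := by
    refine (Complex.abs_re_le_norm _).trans ?_
    rw [norm_mul, hφ, one_mul, Complex.norm_conj]
  have h3 := hdist x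
  have h4 := neg_abs_le ((φ x : ℂ) * (starRingEnd ℂ) (z (T.proj n x) - φ x)).re
  linarith

/-- Every map of the inverse limit to the circle lifts to the real line. -/
theorem exists_lift_real (φ : C(T.Lim, Circle)) : ∃ θ : C(T.Lim, ℝ), ∀ x, Circle.exp (θ x) = φ x := by
  obtain ⟨n, ψ, hψ⟩ := T.exists_circle_approx φ
  obtain ⟨l, hl⟩ := T.exists_log n ψ
  have hc : Continuous (fun x => ((φ x * (ψ (T.proj n x))⁻¹ : Circle) : ℂ)) :=
    continuous_subtype_val.comp
      (φ.continuous.mul ((ψ.continuous.comp (T.proj n).continuous).inv))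
  have harg : Continuous (fun x => Complex.arg ((φ x * (ψ (T.proj n x))⁻¹ : Circle) : ℂ)) := by
    rw [continuous_iff_continuousAt]
    intro x
    exact ContinuousAt.comp (f := fun x => ((φ x * (ψ (T.proj n x))⁻¹ : Circle) : ℂ))
      (Complex.continuousAt_arg (Complex.mem_slitPlane_iff.mpr (Or.inl (hψ x)))) hc.continuousAt
  refine ⟨⟨fun x => l (T.proj (n + 1) x) +
    Complex.arg ((φ x * (ψ (T.proj n x))⁻¹ : Circle) : ℂ),
    (l.continuous.comp (T.proj (n + 1)).continuous).add harg⟩, fun x => ?_⟩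
  show Circle.exp (l (T.proj (n + 1) x) + Complex.arg _) = φ x
  rw [Circle.exp_add, hl, Circle.exp_arg, T.g_proj, mul_comm (φ x), ← mul_assoc, mul_inv_cancel,
    one_mul]

theorem null_homotopic (φ : C(T.Lim, Circle)) :
    ContinuousMap.Homotopic φ (ContinuousMap.const T.Lim 1) := by
  obtain ⟨θ, hθ⟩ := T.exists_lift_real φ
  refine ⟨⟨⟨fun p => Circle.exp ((1 - (p.1 : ℝ)) * θ p.2), ?_⟩, ?_, ?_⟩⟩
  · exact Circle.exp.continuous.comp (by fun_prop)
  · intro x
    show Circle.exp ((1 - ((0 : I) : ℝ)) * θ x) = φ x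
    simp [hθ]
  · intro x
    show Circle.exp ((1 - ((1 : I) : ℝ)) * θ x) = 1
    simp

end Tower

/-- The topological half of the argument: a tower of dipole graphs refutes the problem statement. -/
theorem main_of_tower (T : Tower) :
    ¬ (∀ (M : Type) [MetricSpace M] [CompactSpace M] [ConnectedSpace M] [Nontrivial M]
      (f : C(M, M)),
      Function.Surjective f →
      (∀ x : M, ∀ K : Set M, IsClosed K → IsConnected K → x ∈ K → f x ∈ K → K = Set.univ) →
      ∃ g : C(M, Circle), Function.Surjective g ∧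
        ∀ c : Circle, ¬ ContinuousMap.Homotopic g (ContinuousMap.const M c)) := by
  intro h
  let _ : MetricSpace T.Lim := TopologicalSpace.metrizableSpaceMetric T.Lim
  obtain ⟨g, -, hg⟩ := h T.Lim T.F T.F_surj
    (fun x K hK hc hx hFx => T.irreducible x K hK hc.isPreconnected hx hFx)
  exact hg 1 (T.null_homotopic g)

end Pool.Agent.Helper302.Dip
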