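import Pool.Agent.Helper302.Dip.Half

set_option autoImplicit false

open Set Topology
open scoped unitInterval

namespace Pool.Agent.Helper302.Dip

/-- The combinatorial data of the tower of dipole graphs. -/
structure Tower where
  E : ℕ → Type
  fin : ∀ k, Finite (E k)
  dec : ∀ k, DecidableEq (E k)
  ne : ∀ k, Nonempty (E k)
  m : ℕ → ℕ
  G : ∀ k, E (k + 1) → ℕ → E k
  H : ∀ k, E (k + 1) → ℕ → E k
  comm : ∀ k (b : E (k + 2)) i, i ≤ 2 * m (k + 1) →
    H k (G (k + 1) b i) = G k (H (k + 1) b (2 * m (k + 1) - i))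
  apart : ∀ k b i, i ≤ 2 * m k → G k b i ≠ H k b (2 * m k - i)
  alt : ∀ k b b' (φ : E k → ℝ),
    ∑ i ∈ Finset.range (2 * m k + 1), (-1 : ℝ) ^ i * φ (G k b i) =
      ∑ i ∈ Finset.range (2 * m k + 1), (-1 : ℝ) ^ i * φ (G k b' i)
  half1 : ∀ k b a, ∃ i, i < m k ∧ G k b i = a
  half2 : ∀ k b a, ∃ i, m k < i ∧ i ≤ 2 * m k ∧ G k b i = a

attribute [instance] Tower.fin Tower.dec Tower.ne

namespace Tower

variable (T : Tower)

/-- For a family of words, the induced map of graphs. -/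
lemma exists_wordMap {E E' : Type} [DecidableEq E] [DecidableEq E'] [Finite E] [Finite E'] (m : ℕ)
    (w : E' → ℕ → E) : ∃ F : C(Gam E', Gam E), ∀ b i, i ≤ 2 * m → ∀ θ : I,
      F (j b (pt (2 * m + 1) i θ)) = j (w b i) (tw i θ) := by
  choose P hP1 hP2 hP3 hP4 using fun b => exists_path m (w b)
  obtain ⟨F, hF⟩ := exists_lift P hP1 (fun e e' => by rw [hP3, hP3]; exact j_zero _ _)
    (fun e e' => by rw [hP4, hP4]; exact j_one _ _)
  exact ⟨F, fun b i hi θ => by rw [hF, hP2 b i hi]⟩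

lemma exists_flip {E : Type} [DecidableEq E] [Finite E] :
    ∃ F : C(Gam E, Gam E), ∀ e s, F (j e s) = j e (σ s) :=
  exists_lift (fun e s => j e (σ s)) (fun e => (continuous_j e).comp unitInterval.continuous_symm)
    (fun e e' => by simp only [unitInterval.symm_zero]; exact j_one _ _)
    (fun e e' => by simp only [unitInterval.symm_one]; exact j_zero _ _)

/-- The bonding maps. -/
noncomputable def g (k : ℕ) : C(Gam (T.E (k + 1)), Gam (T.E k)) :=
  (exists_wordMap (T.m k) (T.G k)).choose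

lemma g_spec (k : ℕ) (b : T.E (k + 1)) (i : ℕ) (hi : i ≤ 2 * T.m k) (θ : I) :
    T.g k (j b (pt (2 * T.m k + 1) i θ)) = j (T.G k b i) (tw i θ) :=
  (exists_wordMap (T.m k) (T.G k)).choose_spec b i hi θ

/-- The maps inducing the self-map. -/
noncomputable def f (k : ℕ) : C(Gam (T.E (k + 1)), Gam (T.E k)) :=
  ((exists_wordMap (T.m k) (T.H k)).choose).comp (exists_flip (E := T.E (k + 1))).choose

lemma f_spec (k : ℕ) (b : T.E (k + 1)) (i : ℕ) (hi : i ≤ 2 * T.m k) (θ : I) :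
    T.f k (j b (σ (pt (2 * T.m k + 1) i θ))) = j (T.H k b i) (tw i θ) := by
  show (exists_wordMap (T.m k) (T.H k)).choose ((exists_flip (E := T.E (k + 1))).choose _) = _
  rw [(exists_flip (E := T.E (k + 1))).choose_spec, unitInterval.symm_symm]
  exact (exists_wordMap (T.m k) (T.H k)).choose_spec b i hi θ

/-- Both maps in one formula: the images of a point are mirror images on two different edges. -/
lemma g_f_spec (k : ℕ) (b : T.E (k + 1)) (i : ℕ) (hi : i ≤ 2 * T.m k) (θ : I) :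
    T.g k (j b (pt (2 * T.m k + 1) i θ)) = j (T.G k b i) (tw i θ) ∧
    T.f k (j b (pt (2 * T.m k + 1) i θ)) = j (T.H k b (2 * T.m k - i)) (σ (tw i θ)) := by
  refine ⟨T.g_spec k b i hi θ, ?_⟩
  have h1 : pt (2 * T.m k + 1) i θ = σ (pt (2 * T.m k + 1) (2 * T.m k - i) (σ θ)) := by
    rw [symm_pt (by omega), unitInterval.symm_symm]
    congr 1
    omega
  rw [h1, T.f_spec k b _ (by omega), tw_rev hi, tw_symm]

lemma comm_maps (k : ℕ) (x : Gam (T.E (k + 2))) :
    T.g k (T.f (k + 1) x) = T.f k (T.g (k + 1) x) := by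
  obtain ⟨b, u, rfl⟩ := exists_j x
  obtain ⟨i, θ, hi, rfl⟩ := exists_pt (q := 2 * T.m (k + 1) + 1) (by omega) u
  have hi' : i ≤ 2 * T.m (k + 1) := by omega
  obtain ⟨h1, h2⟩ := T.g_f_spec (k + 1) b i hi' θ
  rw [h1, h2]
  -- both sides are evaluated at a subdivided parameter
  obtain ⟨i2, θ2, hi2, hp⟩ := exists_pt (q := 2 * T.m k + 1) (by omega) (σ (tw i θ))
  have hi2' : i2 ≤ 2 * T.m k := by omega
  have hp' : tw i θ = σ (pt (2 * T.m k + 1) i2 θ2) := by rw [hp, unitInterval.symm_symm]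
  rw [← hp, T.g_spec k _ i2 hi2', hp', T.f_spec k _ i2 hi2', T.comm k b i hi']

lemma exists_mirror (k : ℕ) (x : Gam (T.E (k + 1))) : ∃ a c : T.E k, ∃ s : I, a ≠ c ∧
    T.g k x = j a s ∧ T.f k x = j c (σ s) := by
  obtain ⟨b, u, rfl⟩ := exists_j x
  obtain ⟨i, θ, hi, rfl⟩ := exists_pt (q := 2 * T.m k + 1) (by omega) u
  obtain ⟨h1, h2⟩ := T.g_f_spec k b i (by omega) θ
  exact ⟨_, _, _, T.apart k b i (by omega), h1, h2⟩

lemma image_first (k : ℕ) (K : Set (Gam (T.E (k + 1)))) (e : T.E (k + 1))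
    (h : ∀ t : I, (t : ℝ) ≤ 1 / 2 → j e t ∈ K) (y : Gam (T.E k)) : ∃ x ∈ K, T.g k x = y := by
  obtain ⟨a, s, rfl⟩ := exists_j y
  obtain ⟨i, hi, hG⟩ := T.half1 k e a
  refine ⟨j e (pt (2 * T.m k + 1) i (tw i s)), h _ ?_, ?_⟩
  · rw [coe_pt (by omega)]
    have h1 : ((i : ℝ) + 1) ≤ T.m k := by exact_mod_cast hi
    have h2 := (tw i s).2.2
    have h3 : (0 : ℝ) < ((2 * T.m k + 1 : ℕ) : ℝ) := by positivity
    rw [div_le_iff₀ h3]
    push_cast
    linarith
  · rw [T.g_spec k e i (by omega), hG, tw_tw]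

lemma image_second (k : ℕ) (K : Set (Gam (T.E (k + 1)))) (e : T.E (k + 1))
    (h : ∀ t : I, 1 / 2 ≤ (t : ℝ) → j e t ∈ K) (y : Gam (T.E k)) : ∃ x ∈ K, T.g k x = y := by
  obtain ⟨a, s, rfl⟩ := exists_j y
  obtain ⟨i, hi, hi2, hG⟩ := T.half2 k e a
  refine ⟨j e (pt (2 * T.m k + 1) i (tw i s)), h _ ?_, ?_⟩
  · rw [coe_pt (by omega)]
    have h1 : ((T.m k : ℝ) + 1) ≤ i := by exact_mod_cast hi
    have h2 := (tw i s).2.1
    have h3 : (0 : ℝ) < ((2 * T.m k + 1 : ℕ) : ℝ) := by positivity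
    rw [le_div_iff₀ h3]
    push_cast
    linarith
  · rw [T.g_spec k e i (by omega), hG, tw_tw]

lemma g_surj (k : ℕ) : Function.Surjective (T.g k) := by
  intro y
  obtain ⟨e⟩ := T.ne (k + 1)
  obtain ⟨x, -, h⟩ := T.image_first k univ e (fun _ _ => mem_univ _) y
  exact ⟨x, h⟩

/-- A preconnected set containing both images of a point is mapped onto the whole graph. -/
lemma image_full (k : ℕ) (x : Gam (T.E (k + 2))) (K : Set (Gam (T.E (k + 1))))
    (hK : IsPreconnected K) (h1 : T.g (k + 1) x ∈ K) (h2 : T.f (k + 1) x ∈ K)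
    (y : Gam (T.E k)) : ∃ z ∈ K, T.g k z = y := by
  obtain ⟨a, c, s, hac, hg, hf⟩ := T.exists_mirror (k + 1) x
  rw [hg] at h1
  rw [hf] at h2
  obtain ⟨e, he | he⟩ := half_edge hK hac s h1 h2
  · exact T.image_first k K e he y
  · exact T.image_second k K e he y

end Tower

end Pool.Agent.Helper302.Dip
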