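import Pool.Agent.Helper302.Dip.Tower

set_option autoImplicit false

open Set Topology
open scoped unitInterval

namespace Pool.Agent.Helper302.Dip

lemma exists_path_lift (γ : C(I, Circle)) (c : ℝ) (h : Circle.exp c = γ 0) :
    ∃ l : C(I, ℝ), (∀ s, Circle.exp (l s) = γ s) ∧ l 0 = c := by
  refine ⟨Circle.isCoveringMap_exp.liftPath γ c h.symm, fun s => ?_, ?_⟩
  · exact congrFun (Circle.isCoveringMap_exp.liftPath_lifts γ c h.symm) s
  · exact Circle.isCoveringMap_exp.liftPath_zero γ c h.symm

namespace Tower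

variable (T : Tower)

lemma exists_log (k : ℕ) (ψ : C(Gam (T.E k), Circle)) :
    ∃ l : C(Gam (T.E (k + 1)), ℝ), ∀ x, Circle.exp (l x) = ψ (T.g k x) := by
  obtain ⟨a0⟩ := T.ne k
  set c0 : ℝ := Complex.arg (ψ (j a0 0)) with hc0
  have hc0' : Circle.exp c0 = ψ (j a0 0) := Circle.exp_arg _
  have hlift : ∀ a : T.E k, ∃ l : C(I, ℝ), (∀ s, Circle.exp (l s) = ψ (j a s)) ∧ l 0 = c0 := by
    intro a
    have := exists_path_lift ⟨fun s => ψ (j a s), ψ.continuous.comp (continuous_j a)⟩ c0 (by
      show _ = ψ (j a 0)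
      rw [hc0', j_zero a a0])
    exact this
  choose l hl hl0 using hlift
  set ω : Circle := ψ (j a0 1) * (ψ (j a0 0))⁻¹ with hω
  set D : T.E k → ℝ := fun a => l a 1 - c0 with hD
  have hDω : ∀ a, Circle.exp (D a) = ω := by
    intro a
    simp only [hD, sub_eq_add_neg, Circle.exp_add, Circle.exp_neg]
    rw [hl, hc0', j_one a a0]
  -- the partial alternating sums
  set S : T.E (k + 1) → ℕ → ℝ := fun b i => ∑ i' ∈ Finset.range i, (-1 : ℝ) ^ i' * D (T.G k b i')
    with hS
  have hexpS : ∀ b i, Circle.exp (S b i) = if Even i then 1 else ω := by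
    intro b i
    induction i with
    | zero => simp [hS]
    | succ i ih =>
      have hstep : S b (i + 1) = S b i + (-1 : ℝ) ^ i * D (T.G k b i) := by
        simp only [hS, Finset.sum_range_succ]
      rw [hstep, Circle.exp_add, ih]
      by_cases hi : Even i
      · have hi' : ¬ Even (i + 1) := by rw [Nat.even_add_one]; simpa using hi
        rw [if_pos hi, if_neg hi', hi.neg_one_pow, one_mul, one_mul, hDω]
      · have hi' : Even (i + 1) := by rw [Nat.even_add_one]; exact hi
        rw [if_neg hi, if_pos hi', (Nat.not_even_iff_odd.mp hi).neg_one_pow, neg_one_mul,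
          Circle.exp_neg, hDω, mul_inv_cancel]
  set F : T.E (k + 1) → ℕ → I → ℝ := fun b i θ =>
    c0 + S b i + (l (T.G k b i) (tw i θ) - l (T.G k b i) (tw i 0)) with hF
  have hFexp : ∀ b i θ, Circle.exp (F b i θ) = ψ (j (T.G k b i) (tw i θ)) := by
    intro b i θ
    simp only [hF, sub_eq_add_neg, Circle.exp_add, Circle.exp_neg]
    rw [hexpS, hl, hl, hc0']
    by_cases hi : Even i
    · simp only [tw, hi, if_true]
      rw [j_zero (T.G k b i) a0, mul_one, mul_comm (ψ (j (T.G k b i) θ)), ← mul_assoc,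
        mul_inv_cancel, one_mul]
    · simp only [tw, hi, if_false, unitInterval.symm_zero]
      rw [j_one (T.G k b i) a0, hω]
      have : ψ (j a0 0) * (ψ (j a0 1) * (ψ (j a0 0))⁻¹) *
          (ψ (j (T.G k b i) (σ θ)) * (ψ (j a0 1))⁻¹) =
          ψ (j (T.G k b i) (σ θ)) * (ψ (j a0 0) * (ψ (j a0 0))⁻¹) *
            (ψ (j a0 1) * (ψ (j a0 1))⁻¹) := by
        ac_rfl
      rw [this, mul_inv_cancel, mul_inv_cancel, mul_one, mul_one]
  have hFc : ∀ b i, Continuous (F b i) := by
    intro b i
    have := (l (T.G k b i)).continuous.comp (continuous_tw i)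
    simp only [hF]
    exact continuous_const.add (this.sub continuous_const)
  have hFs : ∀ b i, F b i 1 = F b (i + 1) 0 := by
    intro b i
    have hstep : S b (i + 1) = S b i + (-1 : ℝ) ^ i * D (T.G k b i) := by
      simp only [hS, Finset.sum_range_succ]
    simp only [hF, hstep, sub_self, add_zero]
    by_cases hi : Even i
    · simp only [tw, hi, if_true, hi.neg_one_pow, hD, hl0]
      ring
    · simp only [tw, hi, if_false, (Nat.not_even_iff_odd.mp hi).neg_one_pow, hD, hl0,
        unitInterval.symm_zero, unitInterval.symm_one]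
      ring
  choose P hPc hP using fun b => glue (q := 2 * T.m k + 1) (by omega) (F b) (hFc b)
    (fun i _ => hFs b i)
  have h0 : (0 : I) = pt (2 * T.m k + 1) 0 0 := by
    apply Subtype.ext; rw [coe_pt (by omega)]; simp
  have h1 : (1 : I) = pt (2 * T.m k + 1) (2 * T.m k) 1 := by
    apply Subtype.ext
    rw [coe_pt (by omega)]
    show (1 : ℝ) = (((2 * T.m k : ℕ) : ℝ) + 1) / ((2 * T.m k + 1 : ℕ) : ℝ)
    have : (2 : ℝ) * T.m k + 1 ≠ 0 := by positivity
    push_cast
    rw [div_self this]
  obtain ⟨L, hL⟩ := exists_lift P hPc (by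
    intro e e'
    rw [h0, hP _ _ (by omega), hP _ _ (by omega)]
    simp [hF, hS]) (by
    intro e e'
    rw [h1, hP _ _ (by omega), hP _ _ (by omega), hFs, hFs]
    simp only [hF, sub_self, add_zero, hS]
    rw [T.alt k e e' D])
  refine ⟨L, fun x => ?_⟩
  obtain ⟨b, u, rfl⟩ := exists_j x
  obtain ⟨i, θ, hi, rfl⟩ := exists_pt (q := 2 * T.m k + 1) (by omega) u
  rw [hL, hP _ _ hi, hFexp, T.g_spec k b i (by omega)]

end Tower

end Pool.Agent.Helper302.Dip
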